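import Mathlib

/-!
GKK matrices: definitions, and the reformulation of the conditions on almost principal minors
through principal minors only.
-/

namespace Pool.Agent.Helper5.GKK

open Matrix Finset
open scoped ComplexOrder

/-- The minor `A[α,β]`, the determinant of the submatrix with rows `α` and columns `β`. -/
noncomputable def minor {n k : ℕ} (A : Matrix (Fin n) (Fin n) ℂ) (α β : Fin k → Fin n) : ℂ :=
  (A.submatrix α β).det

/-- `α` and `β` are increasing sequences of the same length `k` and `A[α,β]` has dispersal `1`: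
`#(α ∩ β) = k - 1`. -/
def AlmostPrincipal {n k : ℕ} (α β : Fin k → Fin n) : Prop :=
  StrictMono α ∧ StrictMono β ∧ (univ.image α ∩ univ.image β).card + 1 = k

/-- `A` is a `P`-matrix: every principal minor is real and positive (in the order of `ℂ`, `0 < z`
means that `z` is real and positive). -/
def IsPMatrix {n : ℕ} (A : Matrix (Fin n) (Fin n) ℂ) : Prop :=
  ∀ (k : ℕ) (α : Fin k → Fin n), StrictMono α → 0 < minor A α α

/-- `A` is GKK: a `P`-matrix with `A[α,β] A[β,α] ≥ 0` for all almost principal minors. -/
def IsGKK {n : ℕ} (A : Matrix (Fin n) (Fin n) ℂ) : Prop :=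
  IsPMatrix A ∧ ∀ (k : ℕ) (α β : Fin k → Fin n), AlmostPrincipal α β →
    0 ≤ minor A α β * minor A β α

/-- `A` is strict GKK: a `P`-matrix with `A[α,β] A[β,α] > 0` for all almost principal minors. -/
def IsStrictGKK {n : ℕ} (A : Matrix (Fin n) (Fin n) ℂ) : Prop :=
  IsPMatrix A ∧ ∀ (k : ℕ) (α β : Fin k → Fin n), AlmostPrincipal α β →
    0 < minor A α β * minor A β α

variable {n : ℕ}

/-- principal minor indexed by a finite set -/
noncomputable def pm (A : Matrix (Fin n) (Fin n) ℂ) (S : Finset (Fin n)) : ℂ :=
  (A.submatrix (Subtype.val : S → Fin n) Subtype.val).det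

section reindex

variable {ι κ : Type*} [Fintype ι] [DecidableEq ι] [Fintype κ] [DecidableEq κ]

theorem det_submatrix_two (M : Matrix ι ι ℂ) (σ τ : κ ≃ ι) :
    (M.submatrix σ τ).det = Equiv.Perm.sign (σ.symm.trans τ) * M.det := by
  have h : M.submatrix σ τ = (M.submatrix id (σ.symm.trans τ)).submatrix σ σ := by
    ext i j; simp
  rw [h, det_submatrix_equiv_self, det_permute']

theorem det_mul_det_submatrix (M N : Matrix ι ι ℂ) (σ τ : κ ≃ ι) :
    (M.submatrix σ τ).det * (N.submatrix τ σ).det = M.det * N.det := by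
  rw [det_submatrix_two, det_submatrix_two]
  have h : (τ.symm.trans σ : Equiv.Perm ι) = (σ.symm.trans τ)⁻¹ := by
    ext x; simp [Equiv.Perm.inv_def]
  rw [h, Equiv.Perm.sign_inv]
  have hs : ((Equiv.Perm.sign (σ.symm.trans τ) : ℤ) : ℂ) * ((Equiv.Perm.sign (σ.symm.trans τ) : ℤ) : ℂ) = 1 := by
    rcases Int.units_eq_one_or (Equiv.Perm.sign (σ.symm.trans τ)) with h | h <;> rw [h] <;> norm_num
  calc _ = (((Equiv.Perm.sign (σ.symm.trans τ) : ℤ) : ℂ) * ((Equiv.Perm.sign (σ.symm.trans τ) : ℤ) : ℂ)) *
        (M.det * N.det) := by ring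
    _ = _ := by rw [hs, one_mul]

end reindex

/-- two injective enumerations of the same set differ by an equivalence -/
theorem exists_equiv {ι κ X : Type*} (α : κ → X) (a : ι → X) (hα : Function.Injective α)
    (ha : Function.Injective a) (h : Set.range α = Set.range a) : ∃ σ : κ ≃ ι, α = a ∘ σ := by
  refine ⟨(Equiv.ofInjective α hα).trans ((Equiv.setCongr h).trans (Equiv.ofInjective a ha).symm), ?_⟩
  funext x
  simp only [Function.comp_apply, Equiv.trans_apply]
  have := Equiv.apply_ofInjective_symm ha ((Equiv.setCongr h) ((Equiv.ofInjective α hα) x))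
  rw [this]
  rfl

/-- Schur complement entries -/
noncomputable def sc (A : Matrix (Fin n) (Fin n) ℂ) (K : Finset (Fin n)) (i j : Fin n) : ℂ :=
  A i j - ∑ x : K, ∑ y : K, A i x * (A.submatrix (Subtype.val : K → Fin n) Subtype.val)⁻¹ x y * A y j

theorem det_sum (A : Matrix (Fin n) (Fin n) ℂ) (K : Finset (Fin n)) (hK : pm A K ≠ 0)
    {κ : Type*} [Fintype κ] [DecidableEq κ] (g h : κ → Fin n) :
    (A.submatrix (Sum.elim (Subtype.val : K → Fin n) g) (Sum.elim (Subtype.val : K → Fin n) h)).det
      = pm A K * (Matrix.of fun x y => sc A K (g x) (h y)).det := by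
  set Q := A.submatrix (Subtype.val : K → Fin n) Subtype.val with hQ
  have hu : IsUnit Q.det := isUnit_iff_ne_zero.mpr hK
  let _ : Invertible Q := Q.invertibleOfIsUnitDet hu
  have hf : A.submatrix (Sum.elim (Subtype.val : K → Fin n) g) (Sum.elim (Subtype.val : K → Fin n) h)
      = fromBlocks Q (A.submatrix Subtype.val h) (A.submatrix g Subtype.val) (A.submatrix g h) := by
    ext (i | i) (j | j) <;> rfl
  rw [hf, det_fromBlocks₁₁]
  congr 2
  ext x y
  simp only [Matrix.sub_apply, submatrix_apply, mul_apply, invOf_eq_nonsing_inv, of_apply, sc, ← hQ]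
  congr 1
  rw [Finset.sum_comm]
  refine Finset.sum_congr rfl fun y' _ => ?_
  rw [Finset.sum_mul]

theorem pm_eq_det (A : Matrix (Fin n) (Fin n) ℂ) {κ : Type*} [Fintype κ] [DecidableEq κ] (a : κ → Fin n)
    (ha : Function.Injective a) (S : Finset (Fin n)) (h : Set.range a = S) :
    (A.submatrix a a).det = pm A S := by
  obtain ⟨σ, hσ⟩ := exists_equiv a (Subtype.val : S → Fin n) ha Subtype.val_injective (by simpa using h)
  rw [hσ, pm, ← submatrix_submatrix]
  exact det_submatrix_equiv_self σ _

section

variable (A : Matrix (Fin n) (Fin n) ℂ) (K : Finset (Fin n)) (i j : Fin n)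

theorem pm_insert (hK : pm A K ≠ 0) (hi : i ∉ K) : pm A (insert i K) = pm A K * sc A K i i := by
  have h := det_sum A K hK (fun _ : Unit => i) (fun _ : Unit => i)
  rw [pm_eq_det A _ ?_ (insert i K) ?_] at h
  · rw [h, det_unique]; rfl
  · rintro (x | x) (y | y) hxy
    · exact congrArg _ (Subtype.val_injective hxy)
    · exact absurd (by rw [← show x.val = i from hxy]; exact x.2) hi
    · exact absurd (by rw [show i = y.val from hxy]; exact y.2) hi
    · rfl
  · ext x
    simp only [Set.mem_range, Sum.exists, Sum.elim_inl, Sum.elim_inr, exists_const, Finset.coe_insert,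
      Set.mem_insert_iff, Finset.mem_coe, Subtype.exists, exists_prop, exists_eq_right]
    constructor
    · rintro (h | h)
      · exact Or.inr h
      · exact Or.inl h.symm
    · rintro (h | h)
      · exact Or.inr h.symm
      · exact Or.inl h

theorem pm_insert_insert (hK : pm A K ≠ 0) (hi : i ∉ K) (hj : j ∉ K) (hij : i ≠ j) :
    pm A (insert i (insert j K)) = pm A K * (sc A K i i * sc A K j j - sc A K i j * sc A K j i) := by
  have h := det_sum A K hK ![i, j] ![i, j]
  rw [pm_eq_det A _ ?_ (insert i (insert j K)) ?_] at h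
  · rw [h, det_fin_two]; simp
  · rintro (x | x) (y | y) hxy
    · exact congrArg _ (Subtype.val_injective hxy)
    · exfalso
      fin_cases y
      · exact hi (by rw [← show x.val = i from hxy]; exact x.2)
      · exact hj (by rw [← show x.val = j from hxy]; exact x.2)
    · exfalso
      fin_cases x
      · exact hi (by rw [show i = y.val from hxy]; exact y.2)
      · exact hj (by rw [show j = y.val from hxy]; exact y.2)
    · fin_cases x <;> fin_cases y
      · rfl
      · exact absurd hxy hij
      · exact absurd hxy.symm hij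
      · rfl
  · ext x
    simp only [Set.mem_range, Sum.exists, Sum.elim_inl, Sum.elim_inr, Finset.coe_insert,
      Set.mem_insert_iff, Finset.mem_coe, Subtype.exists, exists_prop, exists_eq_right]
    constructor
    · rintro (h | ⟨t, ht⟩)
      · exact Or.inr (Or.inr h)
      · fin_cases t
        · exact Or.inl ht.symm
        · exact Or.inr (Or.inl ht.symm)
    · rintro (h | h | h)
      · exact Or.inr ⟨0, h.symm⟩
      · exact Or.inr ⟨1, h.symm⟩
      · exact Or.inl h

/-- For every pair of enumerations of `K ∪ {i}` and `K ∪ {j}` the product of the two minors is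
`A[K ∪ i] A[K ∪ j] - A[K] A[K ∪ i ∪ j]`. -/
theorem prod_eq {κ : Type*} [Fintype κ] [DecidableEq κ] (hK : pm A K ≠ 0) (hi : i ∉ K) (hj : j ∉ K)
    (hij : i ≠ j) (α β : κ → Fin n) (hα : Function.Injective α) (hβ : Function.Injective β)
    (hαr : Set.range α = insert i (K : Set (Fin n))) (hβr : Set.range β = insert j (K : Set (Fin n))) :
    (A.submatrix α β).det * (A.submatrix β α).det
      = pm A (insert i K) * pm A (insert j K) - pm A K * pm A (insert i (insert j K)) := by
  have inj : ∀ i : Fin n, i ∉ K → Function.Injective (Sum.elim (Subtype.val : K → Fin n) (fun _ : Unit => i)) := by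
    intro i hi
    rintro (x | x) (y | y) hxy
    · exact congrArg _ (Subtype.val_injective hxy)
    · exact absurd (by rw [← show x.val = i from hxy]; exact x.2) hi
    · exact absurd (by rw [show i = y.val from hxy]; exact y.2) hi
    · rfl
  have rng : ∀ i : Fin n, Set.range (Sum.elim (Subtype.val : K → Fin n) (fun _ : Unit => i))
      = insert i (K : Set (Fin n)) := by
    intro i
    ext x
    simp only [Set.mem_range, Sum.exists, Sum.elim_inl, Sum.elim_inr, exists_const,
      Set.mem_insert_iff, Finset.mem_coe, Subtype.exists, exists_prop, exists_eq_right]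
    constructor
    · rintro (h | h)
      · exact Or.inr h
      · exact Or.inl h.symm
    · rintro (h | h)
      · exact Or.inr h.symm
      · exact Or.inl h
  obtain ⟨σ, hσ⟩ := exists_equiv α _ hα (inj i hi) (by rw [hαr, rng])
  obtain ⟨τ, hτ⟩ := exists_equiv β _ hβ (inj j hj) (by rw [hβr, rng])
  rw [hσ, hτ, ← submatrix_submatrix, ← submatrix_submatrix, det_mul_det_submatrix, det_sum A K hK,
    det_sum A K hK, pm_insert A K i hK hi, pm_insert A K j hK hj, pm_insert_insert A K i j hK hi hj hij]
  simp only [det_unique, of_apply]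
  ring

end

/-- the almost principal product as a function of `K`, `i`, `j` -/
noncomputable def ap (A : Matrix (Fin n) (Fin n) ℂ) (K : Finset (Fin n)) (i j : Fin n) : ℂ :=
  pm A (insert i K) * pm A (insert j K) - pm A K * pm A (insert i (insert j K))

theorem minor_eq_pm (A : Matrix (Fin n) (Fin n) ℂ) {k : ℕ} (α : Fin k → Fin n) (hα : StrictMono α) :
    minor A α α = pm A (univ.image α) :=
  pm_eq_det A α hα.injective _ (by simp)

theorem isPMatrix_iff (A : Matrix (Fin n) (Fin n) ℂ) : IsPMatrix A ↔ ∀ S, 0 < pm A S := by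
  constructor
  · intro h S
    have h1 := h S.card (S.orderEmbOfFin rfl) (S.orderEmbOfFin rfl).strictMono
    rw [minor_eq_pm A _ (S.orderEmbOfFin rfl).strictMono] at h1
    have h2 : univ.image (S.orderEmbOfFin rfl) = S := by
      apply Finset.coe_injective
      simp
    rwa [h2] at h1
  · intro h k α hα
    rw [minor_eq_pm A α hα]
    exact h _

/-- the shape of an almost principal pair -/
theorem AlmostPrincipal.exists {k : ℕ} {α β : Fin k → Fin n} (h : AlmostPrincipal α β) :
    ∃ (K : Finset (Fin n)) (i j : Fin n), i ∉ K ∧ j ∉ K ∧ i ≠ j ∧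
      Set.range α = insert i (K : Set (Fin n)) ∧ Set.range β = insert j (K : Set (Fin n)) := by
  obtain ⟨h1, h2, h3⟩ := h
  set K := univ.image α ∩ univ.image β with hK
  have c1 : (univ.image α).card = k := by
    rw [card_image_of_injective _ h1.injective, card_univ, Fintype.card_fin]
  have c2 : (univ.image β).card = k := by
    rw [card_image_of_injective _ h2.injective, card_univ, Fintype.card_fin]
  have s1 : (univ.image α \ K).card = 1 := by
    rw [card_sdiff_of_subset inter_subset_left, c1, ← hK]; omega
  have s2 : (univ.image β \ K).card = 1 := by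
    rw [card_sdiff_of_subset inter_subset_right, c2, ← hK]; omega
  obtain ⟨i, hi⟩ := card_eq_one.mp s1
  obtain ⟨j, hj⟩ := card_eq_one.mp s2
  have hi' : i ∈ univ.image α \ K := by rw [hi]; exact mem_singleton_self i
  have hj' : j ∈ univ.image β \ K := by rw [hj]; exact mem_singleton_self j
  have e1 : univ.image α = insert i K := by
    rw [← sdiff_union_of_subset (inter_subset_left : K ⊆ univ.image α), hi]; rfl
  have e2 : univ.image β = insert j K := by
    rw [← sdiff_union_of_subset (inter_subset_right : K ⊆ univ.image β), hj]; rfl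
  refine ⟨K, i, j, (mem_sdiff.mp hi').2, (mem_sdiff.mp hj').2, ?_, ?_, ?_⟩
  · rintro rfl
    exact (mem_sdiff.mp hi').2 (mem_inter.mpr ⟨(mem_sdiff.mp hi').1, (mem_sdiff.mp hj').1⟩)
  · have := congrArg (fun s : Finset (Fin n) => (s : Set (Fin n))) e1
    simpa using this
  · have := congrArg (fun s : Finset (Fin n) => (s : Set (Fin n))) e2
    simpa using this

theorem exists_almostPrincipal {K : Finset (Fin n)} {i j : Fin n} (hi : i ∉ K) (hj : j ∉ K) (hij : i ≠ j) :
    ∃ α β : Fin (K.card + 1) → Fin n, AlmostPrincipal α β ∧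
      Set.range α = insert i (K : Set (Fin n)) ∧ Set.range β = insert j (K : Set (Fin n)) := by
  have ci : (insert i K).card = K.card + 1 := card_insert_of_notMem hi
  have cj : (insert j K).card = K.card + 1 := card_insert_of_notMem hj
  refine ⟨(insert i K).orderEmbOfFin ci, (insert j K).orderEmbOfFin cj,
    ⟨OrderEmbedding.strictMono _, OrderEmbedding.strictMono _, ?_⟩, by simp, by simp⟩
  have h1 : univ.image ((insert i K).orderEmbOfFin ci) = insert i K := by
    apply Finset.coe_injective; simp
  have h2 : univ.image ((insert j K).orderEmbOfFin cj) = insert j K := by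
    apply Finset.coe_injective; simp
  rw [h1, h2]
  have h3 : insert i K ∩ insert j K = K := by
    ext x
    simp only [mem_inter, mem_insert]
    constructor
    · rintro ⟨hx | hx, hx' | hx'⟩
      · exact absurd (hx.symm.trans hx') hij
      · exact hx'
      · exact hx
      · exact hx
    · intro hx; exact ⟨Or.inr hx, Or.inr hx⟩
  rw [h3]

theorem isGKK_iff (A : Matrix (Fin n) (Fin n) ℂ) : IsGKK A ↔ (∀ S, 0 < pm A S) ∧
    ∀ K i j, i ∉ K → j ∉ K → i ≠ j → 0 ≤ ap A K i j := by
  unfold IsGKK
  rw [isPMatrix_iff]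
  refine and_congr_right fun hP => ?_
  constructor
  · intro h K i j hi hj hij
    obtain ⟨α, β, hαβ, hα, hβ⟩ := exists_almostPrincipal hi hj hij
    have := h _ α β hαβ
    unfold minor at this
    rwa [prod_eq A K i j (hP K).ne' hi hj hij α β hαβ.1.injective hαβ.2.1.injective hα hβ] at this
  · intro h k α β hαβ
    obtain ⟨K, i, j, hi, hj, hij, hα, hβ⟩ := hαβ.exists
    unfold minor
    rw [prod_eq A K i j (hP K).ne' hi hj hij α β hαβ.1.injective hαβ.2.1.injective hα hβ]
    exact h K i j hi hj hij

theorem isStrictGKK_iff (A : Matrix (Fin n) (Fin n) ℂ) : IsStrictGKK A ↔ (∀ S, 0 < pm A S) ∧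
    ∀ K i j, i ∉ K → j ∉ K → i ≠ j → 0 < ap A K i j := by
  unfold IsStrictGKK
  rw [isPMatrix_iff]
  refine and_congr_right fun hP => ?_
  constructor
  · intro h K i j hi hj hij
    obtain ⟨α, β, hαβ, hα, hβ⟩ := exists_almostPrincipal hi hj hij
    have := h _ α β hαβ
    unfold minor at this
    rwa [prod_eq A K i j (hP K).ne' hi hj hij α β hαβ.1.injective hαβ.2.1.injective hα hβ] at this
  · intro h k α β hαβ
    obtain ⟨K, i, j, hi, hj, hij, hα, hβ⟩ := hαβ.exists
    unfold minor
    rw [prod_eq A K i j (hP K).ne' hi hj hij α β hαβ.1.injective hαβ.2.1.injective hα hβ]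
    exact h K i j hi hj hij

/-! ### heredity -/

theorem IsStrictGKK.submatrix {m : ℕ} {A : Matrix (Fin n) (Fin n) ℂ} (hA : IsStrictGKK A) (e : Fin m → Fin n)
    (he : StrictMono e) : IsStrictGKK (A.submatrix e e) := by
  refine ⟨fun k α hα => hA.1 k (e ∘ α) (he.comp hα), fun k α β h => ?_⟩
  refine hA.2 k (e ∘ α) (e ∘ β) ⟨he.comp h.1, he.comp h.2.1, ?_⟩
  rw [← image_image, ← image_image, ← image_inter _ _ he.injective, card_image_of_injective _ he.injective]
  exact h.2.2

theorem mem_closure_submatrix {m : ℕ} {A : Matrix (Fin n) (Fin n) ℂ}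
    (hA : A ∈ closure {B : Matrix (Fin n) (Fin n) ℂ | IsStrictGKK B}) (e : Fin m → Fin n)
    (he : StrictMono e) : A.submatrix e e ∈ closure {B : Matrix (Fin m) (Fin m) ℂ | IsStrictGKK B} := by
  have hc : Continuous fun B : Matrix (Fin n) (Fin n) ℂ => B.submatrix e e :=
    continuous_id.matrix_submatrix e e
  exact map_mem_closure (f := fun B : Matrix (Fin n) (Fin n) ℂ => B.submatrix e e) hc hA
    fun B hB => IsStrictGKK.submatrix hB e he

end Pool.Agent.Helper5.GKK
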