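import Mathlib
import Pool.Agent.Helper5.GKK.Basic

/-!
Bordering a GKK matrix by unit columns gives a GKK matrix.
-/

namespace Pool.Agent.Helper5.GKK

open Matrix Finset
open scoped ComplexOrder

variable {m n : ℕ}

/-- the part of `S` among the first `m` indices -/
def res (h : m ≤ n) (S : Finset (Fin n)) : Finset (Fin m) := univ.filter fun i => Fin.castLE h i ∈ S

theorem mem_res {h : m ≤ n} {S : Finset (Fin n)} {i : Fin m} : i ∈ res h S ↔ Fin.castLE h i ∈ S := by
  simp [res]

theorem res_insert_lt {h : m ≤ n} {S : Finset (Fin n)} (i : Fin m) :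
    res h (insert (Fin.castLE h i) S) = insert i (res h S) := by
  ext j
  simp only [mem_res, mem_insert]
  rw [(Fin.castLE_injective h).eq_iff]

theorem res_insert_ge {h : m ≤ n} {S : Finset (Fin n)} (i : Fin n) (hi : m ≤ (i : ℕ)) :
    res h (insert i S) = res h S := by
  ext j
  simp only [mem_res, mem_insert]
  constructor
  · rintro (h1 | h1)
    · exfalso
      have := congrArg Fin.val h1
      simp at this
      omega
    · exact h1
  · exact Or.inr

theorem pm_ext (h : m ≤ n) (B : Matrix (Fin m) (Fin m) ℂ) (A : Matrix (Fin n) (Fin n) ℂ)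
    (h1 : ∀ i j, A (Fin.castLE h i) (Fin.castLE h j) = B i j)
    (h2 : ∀ i j : Fin n, m ≤ (j : ℕ) → A i j = if i = j then 1 else 0) (S : Finset (Fin n)) :
    pm A S = pm B (res h S) := by
  classical
  set M := A.submatrix (Subtype.val : S → Fin n) Subtype.val with hM
  have ht := Matrix.twoBlockTriangular_det' M (fun x : S => (x.val : ℕ) < m) (by
    intro i hi j hj
    rw [hM, submatrix_apply, h2 _ _ (not_lt.mp hj), if_neg]
    intro hij
    rw [hij] at hi
    exact hj hi)
  have e1 : (M.toSquareBlockProp fun x : S => (x.val : ℕ) < m).det = pm B (res h S) := by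
    let b : {x : S // (x.val : ℕ) < m} → Fin m := fun x => ⟨x.val.val, x.2⟩
    have hb : Function.Injective b := by
      intro x y hxy
      apply Subtype.ext
      apply Subtype.ext
      apply Fin.ext
      exact congrArg (fun t : Fin m => (t : ℕ)) hxy
    rw [← pm_eq_det B b hb (res h S)]
    · congr 1
      ext x y
      rw [submatrix_apply, ← h1]
      rfl
    · ext x
      simp only [Set.mem_range, Finset.mem_coe, mem_res]
      constructor
      · rintro ⟨y, rfl⟩
        exact y.val.2
      · intro hx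
        exact ⟨⟨⟨_, hx⟩, by simp⟩, rfl⟩
  have e2 : (M.toSquareBlockProp fun x : S => ¬ (x.val : ℕ) < m).det = 1 := by
    have : (M.toSquareBlockProp fun x : S => ¬ (x.val : ℕ) < m) = 1 := by
      ext x y
      rw [toSquareBlockProp_def, of_apply, hM, submatrix_apply, h2 _ _ (not_lt.mp y.2), one_apply]
      congr 1
      simp only [Subtype.ext_iff]
    rw [this, det_one]
  rw [pm, ht, e1, e2, mul_one]

theorem isGKK_ext (h : m ≤ n) (B : Matrix (Fin m) (Fin m) ℂ) (A : Matrix (Fin n) (Fin n) ℂ)
    (h1 : ∀ i j, A (Fin.castLE h i) (Fin.castLE h j) = B i j)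
    (h2 : ∀ i j : Fin n, m ≤ (j : ℕ) → A i j = if i = j then 1 else 0) (hB : IsGKK B) : IsGKK A := by
  rw [isGKK_iff] at hB ⊢
  refine ⟨fun S => by rw [pm_ext h B A h1 h2]; exact hB.1 _, ?_⟩
  intro K i j hi hj hij
  unfold ap
  simp only [pm_ext h B A h1 h2]
  rcases Nat.lt_or_ge (i : ℕ) m with h3 | h3
  · obtain ⟨i, rfl⟩ : ∃ i' : Fin m, Fin.castLE h i' = i := ⟨⟨i, h3⟩, rfl⟩
    rcases Nat.lt_or_ge (j : ℕ) m with h4 | h4
    · obtain ⟨j, rfl⟩ : ∃ j' : Fin m, Fin.castLE h j' = j := ⟨⟨j, h4⟩, rfl⟩
      simp only [res_insert_lt]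
      exact hB.2 (res h K) i j (fun hh => hi (mem_res.mp hh)) (fun hh => hj (mem_res.mp hh))
        (fun hh => hij (congrArg _ hh))
    · simp only [res_insert_lt, res_insert_ge j h4]
      rw [mul_comm, sub_self]
  · simp only [res_insert_ge i h3]
    rw [sub_self]

end Pool.Agent.Helper5.GKK
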