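import Mathlib
import Pool.Agent.Helper5.GKK.Ext

/-!
GKK and strict GKK matrices of order three in terms of the entries.
-/

namespace Pool.Agent.Helper5.GKK

open Matrix Finset
open scoped ComplexOrder

section

variable {n : ℕ} (A : Matrix (Fin n) (Fin n) ℂ)

theorem pm_empty : pm A ∅ = 1 := by
  rw [pm]; exact det_isEmpty

theorem sc_empty (i j : Fin n) : sc A ∅ i j = A i j := by
  rw [sc]; simp

theorem pm_singleton (i : Fin n) : pm A {i} = A i i := by
  have h := pm_insert A ∅ i (by rw [pm_empty]; exact one_ne_zero) (by simp)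
  rw [pm_empty, sc_empty, one_mul] at h
  exact h

theorem pm_pair {i j : Fin n} (hij : i ≠ j) : pm A {i, j} = A i i * A j j - A i j * A j i := by
  have h := pm_insert_insert A ∅ i j (by rw [pm_empty]; exact one_ne_zero) (by simp) (by simp) hij
  rw [pm_empty, sc_empty, sc_empty, sc_empty, sc_empty, one_mul] at h
  exact h

theorem pm_univ : pm A univ = A.det := by
  rw [← pm_eq_det A id Function.injective_id univ (by simp)]
  rfl

end

variable (A : Matrix (Fin 3) (Fin 3) ℂ)

theorem subsets3 : ∀ S : Finset (Fin 3), S = ∅ ∨ (∃ i, S = {i}) ∨ (∃ i j, i ≠ j ∧ S = {i, j}) ∨ S = univ := by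
  decide

theorem subsets3' : ∀ (K : Finset (Fin 3)) (i j : Fin 3), i ∉ K → j ∉ K → i ≠ j →
    K = ∅ ∨ ∃ k, k ≠ i ∧ k ≠ j ∧ K = {k} := by
  decide

theorem univ3 : ∀ i j k : Fin 3, i ≠ j → k ≠ i → k ≠ j → (insert i (insert j {k}) : Finset (Fin 3)) = univ := by
  decide

theorem pm_pos_three : (∀ S, 0 < pm A S) ↔ (∀ i, 0 < A i i) ∧
    (∀ i j, i ≠ j → 0 < A i i * A j j - A i j * A j i) ∧ 0 < A.det := by
  constructor
  · intro h
    refine ⟨fun i => ?_, fun i j hij => ?_, ?_⟩
    · rw [← pm_singleton A i]; exact h _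
    · rw [← pm_pair A hij]; exact h _
    · rw [← pm_univ]; exact h _
  · rintro ⟨h1, h2, h3⟩ S
    rcases subsets3 S with rfl | ⟨i, rfl⟩ | ⟨i, j, hij, rfl⟩ | rfl
    · rw [pm_empty]; exact zero_lt_one
    · rw [pm_singleton]; exact h1 i
    · rw [pm_pair A hij]; exact h2 i j hij
    · rw [pm_univ]; exact h3

theorem ap_empty_three {i j : Fin 3} (hij : i ≠ j) : ap A ∅ i j = A i j * A j i := by
  rw [ap, pm_empty]
  have e1 : (insert i ∅ : Finset (Fin 3)) = {i} := rfl
  have e2 : (insert j ∅ : Finset (Fin 3)) = {j} := rfl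
  rw [e1, e2, pm_singleton, pm_singleton, pm_pair A hij]
  ring

theorem ap_single_three {i j k : Fin 3} (hij : i ≠ j) (hki : k ≠ i) (hkj : k ≠ j) :
    ap A {k} i j = (A i i * A k k - A i k * A k i) * (A j j * A k k - A j k * A k j) - A k k * A.det := by
  rw [ap, univ3 i j k hij hki hkj, pm_univ, pm_singleton, pm_pair A hki.symm, pm_pair A hkj.symm]

theorem isGKK_three : IsGKK A ↔ ((∀ i, 0 < A i i) ∧
    (∀ i j, i ≠ j → 0 < A i i * A j j - A i j * A j i) ∧ 0 < A.det) ∧
    (∀ i j, i ≠ j → 0 ≤ A i j * A j i) ∧ (∀ i j k, i ≠ j → k ≠ i → k ≠ j →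
      0 ≤ (A i i * A k k - A i k * A k i) * (A j j * A k k - A j k * A k j) - A k k * A.det) := by
  rw [isGKK_iff, pm_pos_three]
  refine and_congr_right fun _ => ?_
  constructor
  · intro h
    refine ⟨fun i j hij => ?_, fun i j k hij hki hkj => ?_⟩
    · rw [← ap_empty_three A hij]
      exact h ∅ i j (by simp) (by simp) hij
    · rw [← ap_single_three A hij hki hkj]
      exact h {k} i j (by simpa using hki.symm) (by simpa using hkj.symm) hij
  · rintro ⟨h1, h2⟩ K i j hi hj hij
    rcases subsets3' K i j hi hj hij with rfl | ⟨k, hki, hkj, rfl⟩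
    · rw [ap_empty_three A hij]; exact h1 i j hij
    · rw [ap_single_three A hij hki hkj]; exact h2 i j k hij hki hkj

theorem isStrictGKK_three : IsStrictGKK A ↔ ((∀ i, 0 < A i i) ∧
    (∀ i j, i ≠ j → 0 < A i i * A j j - A i j * A j i) ∧ 0 < A.det) ∧
    (∀ i j, i ≠ j → 0 < A i j * A j i) ∧ (∀ i j k, i ≠ j → k ≠ i → k ≠ j →
      0 < (A i i * A k k - A i k * A k i) * (A j j * A k k - A j k * A k j) - A k k * A.det) := by
  rw [isStrictGKK_iff, pm_pos_three]
  refine and_congr_right fun _ => ?_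
  constructor
  · intro h
    refine ⟨fun i j hij => ?_, fun i j k hij hki hkj => ?_⟩
    · rw [← ap_empty_three A hij]
      exact h ∅ i j (by simp) (by simp) hij
    · rw [← ap_single_three A hij hki hkj]
      exact h {k} i j (by simpa using hki.symm) (by simpa using hkj.symm) hij
  · rintro ⟨h1, h2⟩ K i j hi hj hij
    rcases subsets3' K i j hi hj hij with rfl | ⟨k, hki, hkj, rfl⟩
    · rw [ap_empty_three A hij]; exact h1 i j hij
    · rw [ap_single_three A hij hki hkj]; exact h2 i j k hij hki hkj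

end Pool.Agent.Helper5.GKK
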