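import Mathlib
import Pool.Agent.Helper5.GKK.Three

/-!
Symmetrizable matrices: limits of strict GKK matrices that are diagonally similar to Hermitian ones.
-/

namespace Pool.Agent.Helper5.GKK

open Matrix Finset Filter Topology
open scoped ComplexOrder ComplexConjugate

/-- `diag(w) A` is Hermitian. For positive `w` this says that `D A D⁻¹` is Hermitian, where
`D = diag(√w)`. -/
def SymmWith {n : ℕ} (w : Fin n → ℝ) (A : Matrix (Fin n) (Fin n) ℂ) : Prop :=
  ∀ i j, (w i : ℂ) * A i j = w j * conj (A j i)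

/-- `A` is diagonally similar, with a positive diagonal matrix, to a Hermitian matrix. -/
def Symmetrizable {n : ℕ} (A : Matrix (Fin n) (Fin n) ℂ) : Prop :=
  ∃ w : Fin n → ℝ, (∀ i, 0 < w i) ∧ SymmWith w A

variable {n : ℕ}

theorem SymmWith.det_eq {w : Fin n → ℝ} (hw : ∀ i, 0 < w i) {A : Matrix (Fin n) (Fin n) ℂ}
    (h : SymmWith w A) {κ : Type*} [Fintype κ] [DecidableEq κ] (α β : κ → Fin n) :
    (A.submatrix β α).det
      = ((∏ x, w (α x)) / (∏ x, w (β x)) : ℝ) * conj (A.submatrix α β).det := by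
  have hwc : ∀ i, (w i : ℂ) ≠ 0 := fun i => by exact_mod_cast (hw i).ne'
  have e : A.submatrix β α = Matrix.of fun x y => ((w (β x))⁻¹ : ℂ) *
      (Matrix.of fun x y => (w (α y) : ℂ) * ((A.submatrix α β).map conj)ᵀ x y) x y := by
    ext x y
    simp only [submatrix_apply, of_apply, transpose_apply, map_apply]
    have := h (β x) (α y)
    rw [← this, ← mul_assoc, inv_mul_cancel₀ (hwc _), one_mul]
  have e2 : (conj (A.submatrix α β).det : ℂ) = ((A.submatrix α β).map conj).det := by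
    rw [← RingHom.mapMatrix_apply, ← RingHom.map_det]
  rw [e, det_mul_column (fun x => ((w (β x))⁻¹ : ℂ)) _, det_mul_row (fun y => (w (α y) : ℂ)) _, det_transpose, e2]
  rw [Finset.prod_inv_distrib]
  push_cast
  ring

theorem SymmWith.im_pm {w : Fin n → ℝ} (hw : ∀ i, 0 < w i) {A : Matrix (Fin n) (Fin n) ℂ}
    (h : SymmWith w A) (S : Finset (Fin n)) : (pm A S).im = 0 := by
  have h1 := h.det_eq hw (Subtype.val : S → Fin n) Subtype.val
  have h2 : (∏ x : S, w x.val) ≠ 0 := Finset.prod_ne_zero_iff.mpr fun x _ => (hw _).ne'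
  rw [div_self h2, Complex.ofReal_one, one_mul] at h1
  exact Complex.conj_eq_iff_im.mp h1.symm

theorem SymmWith.ap_nonneg {w : Fin n → ℝ} (hw : ∀ i, 0 < w i) {A : Matrix (Fin n) (Fin n) ℂ}
    (h : SymmWith w A) {K : Finset (Fin n)} {i j : Fin n} (hK : pm A K ≠ 0) (hi : i ∉ K) (hj : j ∉ K)
    (hij : i ≠ j) : 0 ≤ ap A K i j := by
  obtain ⟨α, β, hαβ, hα, hβ⟩ := exists_almostPrincipal hi hj hij
  rw [ap, ← prod_eq A K i j hK hi hj hij α β hαβ.1.injective hαβ.2.1.injective hα hβ,
    h.det_eq hw α β]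
  have h1 : (0 : ℝ) ≤ (∏ x, w (α x)) / (∏ x, w (β x)) :=
    div_nonneg (Finset.prod_nonneg fun x _ => (hw _).le) (Finset.prod_nonneg fun x _ => (hw _).le)
  have h2 : (A.submatrix α β).det * (((∏ x, w (α x)) / (∏ x, w (β x)) : ℝ) * conj (A.submatrix α β).det)
      = (((∏ x, w (α x)) / (∏ x, w (β x)) * Complex.normSq (A.submatrix α β).det : ℝ) : ℂ) := by
    rw [Complex.ofReal_mul, ← Complex.mul_conj]; ring
  rw [h2]
  exact_mod_cast mul_nonneg h1 (Complex.normSq_nonneg _)

/-- the comparison matrix -/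
noncomputable def cmp (w : Fin n → ℝ) : Matrix (Fin n) (Fin n) ℂ :=
  Matrix.of fun i j => ((if i = j then 2 else Real.sqrt (w j) / Real.sqrt (w i) : ℝ) : ℂ)

theorem cmp_symm {w : Fin n → ℝ} (hw : ∀ i, 0 < w i) : SymmWith w (cmp w) := by
  intro i j
  simp only [cmp, of_apply, Complex.conj_ofReal]
  rcases eq_or_ne i j with rfl | hij
  · rfl
  · rw [if_neg hij, if_neg hij.symm, ← Complex.ofReal_mul, ← Complex.ofReal_mul]
    congr 1
    have h1 : Real.sqrt (w i) ≠ 0 := (Real.sqrt_pos.mpr (hw i)).ne'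
    have h2 : Real.sqrt (w j) ≠ 0 := (Real.sqrt_pos.mpr (hw j)).ne'
    calc w i * (Real.sqrt (w j) / Real.sqrt (w i))
        = (Real.sqrt (w i) * Real.sqrt (w i)) * (Real.sqrt (w j) / Real.sqrt (w i)) := by
          rw [Real.mul_self_sqrt (hw i).le]
      _ = (Real.sqrt (w j) * Real.sqrt (w j)) * (Real.sqrt (w i) / Real.sqrt (w j)) := by field_simp
      _ = w j * (Real.sqrt (w i) / Real.sqrt (w j)) := by rw [Real.mul_self_sqrt (hw j).le]

theorem pm_cmp {w : Fin n → ℝ} (hw : ∀ i, 0 < w i) (S : Finset (Fin n)) : pm (cmp w) S = (S.card : ℂ) + 1 := by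
  have h0 : ∀ i, (Real.sqrt (w i) : ℂ) ≠ 0 := fun i => by exact_mod_cast (Real.sqrt_pos.mpr (hw i)).ne'
  have e : (cmp w).submatrix (Subtype.val : S → Fin n) Subtype.val = Matrix.of fun x y =>
      ((Real.sqrt (w x.val) : ℂ))⁻¹ * (Matrix.of fun x y : S => (Real.sqrt (w y.val) : ℂ) *
        ((1 + Matrix.of (fun _ _ : S => (1 : ℂ))) : Matrix S S ℂ) x y) x y := by
    ext x y
    simp only [submatrix_apply, cmp, of_apply, Matrix.add_apply, one_apply]
    rcases eq_or_ne x y with rfl | hxy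
    · rw [if_pos rfl, if_pos rfl]
      have := h0 x.val
      field_simp
      norm_num
    · rw [if_neg (fun hh => hxy (Subtype.ext hh)), if_neg hxy]
      have := h0 x.val
      push_cast
      field_simp
      ring
  rw [pm, e, det_mul_column (fun x : S => ((Real.sqrt (w x.val) : ℂ))⁻¹) _,
    det_mul_row (fun y : S => (Real.sqrt (w y.val) : ℂ)) _]
  have h1 : (1 + Matrix.of (fun _ _ : S => (1 : ℂ)) : Matrix S S ℂ)
      = 1 + replicateCol Unit (fun _ : S => (1 : ℂ)) * replicateRow Unit (fun _ : S => (1 : ℂ)) := by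
    ext x y
    simp [Matrix.mul_apply]
  rw [h1, det_one_add_replicateCol_mul_replicateRow, Finset.prod_inv_distrib]
  have h2 : (∏ x : S, (Real.sqrt (w x.val) : ℂ)) ≠ 0 := Finset.prod_ne_zero_iff.mpr fun x _ => h0 _
  rw [← mul_assoc, inv_mul_cancel₀ h2, one_mul]
  simp [dotProduct]
  ring

theorem ap_cmp {w : Fin n → ℝ} (hw : ∀ i, 0 < w i) {K : Finset (Fin n)} {i j : Fin n} (hi : i ∉ K) (hj : j ∉ K)
    (hij : i ≠ j) : ap (cmp w) K i j = 1 := by
  have hj' : i ∉ insert j K := by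
    rw [mem_insert]; rintro (h | h)
    · exact hij h
    · exact hi h
  rw [ap, pm_cmp hw, pm_cmp hw, pm_cmp hw, pm_cmp hw, card_insert_of_notMem hi, card_insert_of_notMem hj,
    card_insert_of_notMem hj', card_insert_of_notMem hj]
  push_cast
  ring


/-! ### approximation by strict GKK matrices -/

theorem continuous_pm (S : Finset (Fin n)) : Continuous fun A : Matrix (Fin n) (Fin n) ℂ => pm A S :=
  Continuous.matrix_det (continuous_id.matrix_submatrix _ _)

theorem eventually_eval_ne {Q : Polynomial ℂ} (hQ : Q ≠ 0) : ∀ᶠ t : ℝ in 𝓝[>] (0 : ℝ), Q.eval (t : ℂ) ≠ 0 := by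
  have h1 : {z : ℂ | Q.eval z = 0}.Finite := by
    refine Q.roots.toFinset.finite_toSet.subset fun z hz => ?_
    simp only [Finset.mem_coe, Multiset.mem_toFinset]
    exact (Polynomial.mem_roots hQ).mpr hz
  have h2 : {t : ℝ | Q.eval (t : ℂ) = 0}.Finite := h1.preimage (Complex.ofReal_injective.injOn)
  have h3 : ∀ᶠ t : ℝ in cofinite, Q.eval (t : ℂ) ≠ 0 := h2.compl_mem_cofinite
  have h4 : (𝓝[>] (0 : ℝ)) ≤ cofinite :=
    (nhdsWithin_mono (0 : ℝ) (fun (x : ℝ) (hx : (0 : ℝ) < x) => (ne_of_gt hx : x ≠ 0))).trans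
      (nhdsNE_le_cofinite (0 : ℝ))
  exact h3.filter_mono h4

/-- principal minors of a polynomial matrix -/
noncomputable def pmP (M : Matrix (Fin n) (Fin n) (Polynomial ℂ)) (S : Finset (Fin n)) : Polynomial ℂ :=
  (M.submatrix (Subtype.val : S → Fin n) Subtype.val).det

theorem eval_pmP (M : Matrix (Fin n) (Fin n) (Polynomial ℂ)) (S : Finset (Fin n)) (z : ℂ) :
    (pmP M S).eval z = pm (M.map (Polynomial.eval z)) S := by
  have := RingHom.map_det (Polynomial.evalRingHom z) (M.submatrix (Subtype.val : S → Fin n) Subtype.val)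
  rw [Polynomial.coe_evalRingHom] at this
  rw [pmP, this, pm]
  rfl

/-- the segment from `B` to the comparison matrix -/
noncomputable def seg (w : Fin n → ℝ) (B : Matrix (Fin n) (Fin n) ℂ) (t : ℝ) : Matrix (Fin n) (Fin n) ℂ :=
  Matrix.of fun i j => B i j + t * (cmp w i j - B i j)

theorem seg_symm {w : Fin n → ℝ} (hw : ∀ i, 0 < w i) {B : Matrix (Fin n) (Fin n) ℂ} (hB : SymmWith w B)
    (t : ℝ) : SymmWith w (seg w B t) := by
  intro i j
  simp only [seg, of_apply, map_add, map_mul, map_sub, Complex.conj_ofReal]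
  have h1 := hB i j
  have h2 := cmp_symm hw i j
  linear_combination (1 - t : ℂ) * h1 + (t : ℂ) * h2

theorem seg_zero (w : Fin n → ℝ) (B : Matrix (Fin n) (Fin n) ℂ) : seg w B 0 = B := by
  ext i j; simp [seg]

theorem continuous_seg (w : Fin n → ℝ) (B : Matrix (Fin n) (Fin n) ℂ) : Continuous (seg w B) := by
  refine continuous_matrix fun i j => ?_
  simp only [seg, of_apply]
  fun_prop

theorem seg_ap_ne {w : Fin n → ℝ} (hw : ∀ i, 0 < w i) (B : Matrix (Fin n) (Fin n) ℂ) {K : Finset (Fin n)}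
    {i j : Fin n} (hi : i ∉ K) (hj : j ∉ K) (hij : i ≠ j) :
    ∀ᶠ t : ℝ in 𝓝[>] (0 : ℝ), ap (seg w B t) K i j ≠ 0 := by
  let M : Matrix (Fin n) (Fin n) (Polynomial ℂ) := Matrix.of fun i j =>
    Polynomial.C (B i j) + Polynomial.X * Polynomial.C (cmp w i j - B i j)
  have hM : ∀ z : ℂ, M.map (Polynomial.eval z) = Matrix.of fun i j => B i j + z * (cmp w i j - B i j) := by
    intro z
    ext i j
    simp [M]
  let Q : Polynomial ℂ := pmP M (insert i K) * pmP M (insert j K) - pmP M K * pmP M (insert i (insert j K))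
  have hQ : ∀ z : ℂ, Q.eval z = ap (Matrix.of fun i j => B i j + z * (cmp w i j - B i j)) K i j := by
    intro z
    simp only [Q, Polynomial.eval_sub, Polynomial.eval_mul, eval_pmP, hM, ap]
  have hQ0 : Q ≠ 0 := by
    intro h
    have h1 := hQ 1
    rw [h, Polynomial.eval_zero] at h1
    have h2 : (Matrix.of fun i j => B i j + (1 : ℂ) * (cmp w i j - B i j)) = cmp w := by
      ext i j; simp
    rw [h2, ap_cmp hw hi hj hij] at h1
    exact zero_ne_one h1
  filter_upwards [eventually_eval_ne hQ0] with t ht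
  rw [hQ] at ht
  exact ht

theorem pos_of_im {z : ℂ} (h1 : 0 < z.re) (h2 : z.im = 0) : 0 < z := Complex.pos_iff.mpr ⟨h1, h2.symm⟩

theorem eventually_pm_pos {f : ℝ → Matrix (Fin n) (Fin n) ℂ} (hf : ContinuousAt f 0)
    (h0 : ∀ S, 0 < pm (f 0) S) : ∀ᶠ t : ℝ in 𝓝[>] (0 : ℝ), ∀ S, 0 < (pm (f t) S).re := by
  rw [eventually_all]
  intro S
  have hc : ContinuousAt (fun t => (pm (f t) S).re) 0 :=
    (Complex.continuous_re.comp (continuous_pm S)).continuousAt.comp hf
  exact (hc.tendsto.eventually_const_lt (Complex.pos_iff.mp (h0 S)).1).filter_mono nhdsWithin_le_nhds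

/-- the set of strict GKK matrices that are diagonally similar to Hermitian matrices -/
abbrev hset (n : ℕ) : Set (Matrix (Fin n) (Fin n) ℂ) := {X | IsStrictGKK X ∧ Symmetrizable X}

theorem symm_mem_closure {w : Fin n → ℝ} (hw : ∀ i, 0 < w i) {B : Matrix (Fin n) (Fin n) ℂ}
    (hB : SymmWith w B) (hP : ∀ S, 0 < pm B S) : B ∈ closure (hset n) := by
  have hc : ContinuousAt (seg w B) 0 := (continuous_seg w B).continuousAt
  have ht : Tendsto (seg w B) (𝓝[>] (0 : ℝ)) (𝓝 B) := by
    have := hc.tendsto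
    rw [seg_zero] at this
    exact this.mono_left nhdsWithin_le_nhds
  refine mem_closure_of_tendsto ht ?_
  have h1 := eventually_pm_pos hc (by rw [seg_zero]; exact hP)
  have h2 : ∀ᶠ t : ℝ in 𝓝[>] (0 : ℝ), ∀ (K : Finset (Fin n)) (i j : Fin n), i ∉ K → j ∉ K → i ≠ j →
      ap (seg w B t) K i j ≠ 0 := by
    simp only [eventually_all]
    intro K i j hi hj hij
    exact seg_ap_ne hw B hi hj hij
  filter_upwards [h1, h2] with t h1 h2
  have hs := seg_symm hw hB t
  have hp : ∀ S, 0 < pm (seg w B t) S := fun S => pos_of_im (h1 S) (hs.im_pm hw S)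
  refine ⟨(isStrictGKK_iff _).mpr ⟨hp, fun K i j hi hj hij => ?_⟩, w, hw, hs⟩
  exact lt_of_le_of_ne (hs.ap_nonneg hw (hp K).ne' hi hj hij) (h2 K i j hi hj hij).symm

theorem block_mem_closure {A : Matrix (Fin n) (Fin n) ℂ} (hP : ∀ S, 0 < pm A S) (ℓ : Fin n → ℕ)
    {w : Fin n → ℝ} (hw : ∀ i, 0 < w i) (h0 : ∀ i j, ℓ i < ℓ j → A i j = 0)
    (h1 : ∀ i j, ℓ i = ℓ j → (w i : ℂ) * A i j = w j * conj (A j i)) : A ∈ closure (hset n) := by
  let f : ℝ → Matrix (Fin n) (Fin n) ℂ := fun t => Matrix.of fun i j =>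
    if ℓ i < ℓ j then (t : ℂ) ^ (ℓ j - ℓ i) * ((w j / w i : ℝ) : ℂ) * conj (A j i) else A i j
  have hf : Continuous f := by
    refine continuous_matrix fun i j => ?_
    simp only [f, of_apply]
    split_ifs
    · fun_prop
    · exact continuous_const
  have hf0 : f 0 = A := by
    ext i j
    simp only [f, of_apply]
    split_ifs with h
    · rw [h0 i j h, Complex.ofReal_zero, zero_pow (by omega)]; simp
    · rfl
  have ht : Tendsto f (𝓝[>] (0 : ℝ)) (𝓝 A) := by
    have := hf.continuousAt (x := (0 : ℝ)) |>.tendsto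
    rw [hf0] at this
    exact this.mono_left nhdsWithin_le_nhds
  refine isClosed_closure.mem_of_tendsto ht ?_
  have h2 := eventually_pm_pos hf.continuousAt (by rw [hf0]; exact hP)
  filter_upwards [h2, self_mem_nhdsWithin] with t h2 h3
  have ht0 : (0 : ℝ) < t := h3
  have htc : (t : ℂ) ≠ 0 := by exact_mod_cast ht0.ne'
  have hwc : ∀ i, (w i : ℂ) ≠ 0 := fun i => by exact_mod_cast (hw i).ne'
  have hW : ∀ i, 0 < w i * t ^ ℓ i := fun i => by have := hw i; positivity
  have key : ∀ i j, ℓ i < ℓ j → ((w i * t ^ ℓ i : ℝ) : ℂ) * f t i j = ((w j * t ^ ℓ j : ℝ) : ℂ) * conj (f t j i) := by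
    intro i j hij
    simp only [f, of_apply]
    rw [if_pos hij, if_neg (by omega)]
    have e : (t : ℂ) ^ ℓ j = (t : ℂ) ^ ℓ i * (t : ℂ) ^ (ℓ j - ℓ i) := by
      rw [← pow_add]; congr 1; omega
    push_cast
    rw [e]
    have := hwc i
    field_simp
  have hs : SymmWith (fun i => w i * t ^ ℓ i) (f t) := by
    intro i j
    rcases lt_trichotomy (ℓ i) (ℓ j) with h | h | h
    · exact key i j h
    · simp only [f, of_apply]
      rw [if_neg (by omega), if_neg (by omega), h]
      push_cast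
      have := h1 i j h
      linear_combination (t : ℂ) ^ ℓ j * this
    · have := congrArg conj (key j i h)
      simp only [map_mul, Complex.conj_ofReal, Complex.conj_conj] at this
      exact this.symm
  exact symm_mem_closure hW hs fun S => pos_of_im (h2 S) (hs.im_pm hW S)


/-- A limit of symmetrizable matrices is block triangular with symmetrizable diagonal blocks. -/
theorem exists_block {A : Matrix (Fin n) (Fin n) ℂ}
    (hA : A ∈ closure {X : Matrix (Fin n) (Fin n) ℂ | Symmetrizable X}) :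
    ∃ (ℓ : Fin n → ℕ) (w : Fin n → ℝ), (∀ i, 0 < w i) ∧ (∀ i j, ℓ i < ℓ j → A i j = 0) ∧
      ∀ i j, ℓ i = ℓ j → (w i : ℂ) * A i j = w j * conj (A j i) := by
  classical
  obtain ⟨U, hU, hUA⟩ := mem_closure_iff_ultrafilter.mp hA
  let W : Matrix (Fin n) (Fin n) ℂ → Fin n → ℝ := fun X =>
    if h : Symmetrizable X then h.choose else 1
  have hW : ∀ᶠ X in (U : Filter _), (∀ i, 0 < W X i) ∧ SymmWith (W X) X := by
    filter_upwards [hU] with X hX
    have hX' : Symmetrizable X := hX
    simp only [W, dif_pos hX']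
    exact hX'.choose_spec
  let r : Fin n → Fin n → Matrix (Fin n) (Fin n) ℂ → ℝ := fun i j X => W X i / W X j
  let B : Fin n → Fin n → Prop := fun i j => ∃ M : ℝ, 0 < M ∧ ∀ᶠ X in (U : Filter _), r i j X ≤ M
  have hrefl : ∀ i, B i i := by
    intro i
    refine ⟨1, one_pos, ?_⟩
    filter_upwards [hW] with X hX
    simp only [r]
    rw [div_self (hX.1 i).ne']
  have hrpos : ∀ i j, ∀ᶠ X in (U : Filter _), 0 < r i j X := by
    intro i j
    filter_upwards [hW] with X hX
    exact div_pos (hX.1 i) (hX.1 j)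
  have htrans : ∀ i j k, B i j → B j k → B i k := by
    rintro i j k ⟨M, hM, h1⟩ ⟨M', hM', h2⟩
    refine ⟨M * M', mul_pos hM hM', ?_⟩
    filter_upwards [h1, h2, hW] with X h1 h2 hX
    have e : r i k X = r i j X * r j k X := by
      simp only [r]
      have := (hX.1 j).ne'
      field_simp
    rw [e]
    exact mul_le_mul h1 h2 (div_pos (hX.1 j) (hX.1 k)).le hM.le
  -- not bounded implies that the inverse ratio tends to zero
  have hzero : ∀ i j, ¬ B i j → Tendsto (r j i) U (𝓝 0) := by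
    intro i j hB
    rw [Metric.tendsto_nhds]
    intro ε hε
    have h1 : ¬ ∀ᶠ X in (U : Filter _), r i j X ≤ 1 / ε := fun h => hB ⟨1 / ε, by positivity, h⟩
    rw [← Ultrafilter.eventually_not] at h1
    filter_upwards [h1, hW] with X h1 hX
    rw [Real.dist_eq, sub_zero]
    have h2 : 0 < r j i X := div_pos (hX.1 j) (hX.1 i)
    rw [abs_of_pos h2]
    have h3 : 1 / ε < r i j X := not_le.mp h1
    have e : r j i X = 1 / r i j X := by simp only [r]; rw [one_div_div]
    rw [e, div_lt_iff₀ (div_pos (hX.1 i) (hX.1 j))]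
    rw [div_lt_iff₀ hε] at h3
    linarith
  have htotal : ∀ i j, ¬ B i j → B j i := by
    intro i j hB
    refine ⟨1, one_pos, ?_⟩
    have := (hzero i j hB).eventually_le_const one_pos
    exact this
  have hlim : ∀ i j, B i j → B j i → ∃ ρ : ℝ, 0 < ρ ∧ Tendsto (r i j) U (𝓝 ρ) := by
    rintro i j ⟨M, hM, h1⟩ ⟨M', hM', h2⟩
    have hmem : ∀ᶠ X in (U : Filter _), r i j X ∈ Set.Icc (1 / M') M := by
      filter_upwards [h1, h2, hW] with X h1 h2 hX
      refine ⟨?_, h1⟩
      have e : r j i X = 1 / r i j X := by simp only [r]; rw [one_div_div]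
      have h3 : 0 < r i j X := div_pos (hX.1 i) (hX.1 j)
      rw [e, div_le_iff₀ h3] at h2
      rw [div_le_iff₀ hM']
      linarith
    obtain ⟨ρ, hρ, hle⟩ := isCompact_Icc.ultrafilter_le_nhds (U.map (r i j)) (by
      rw [le_principal_iff]; exact hmem)
    exact ⟨ρ, lt_of_lt_of_le (by positivity) hρ.1, hle⟩
  have hent : ∀ i j, Tendsto (fun X : Matrix (Fin n) (Fin n) ℂ => X i j) U (𝓝 (A i j)) := by
    intro i j
    exact ((continuous_apply_apply i j).tendsto A).mono_left hUA
  have hconj : ∀ i j, Tendsto (fun X : Matrix (Fin n) (Fin n) ℂ => conj (X i j)) U (𝓝 (conj (A i j))) := by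
    intro i j
    exact (Complex.continuous_conj.tendsto _).comp (hent i j)
  have hne : (U : Filter (Matrix (Fin n) (Fin n) ℂ)).NeBot := inferInstance
  -- vanishing
  have hvan : ∀ i j, ¬ B i j → A i j = 0 := by
    intro i j hB
    have h1 : Tendsto (fun X : Matrix (Fin n) (Fin n) ℂ => ((r j i X : ℝ) : ℂ) * conj (X j i)) U
        (𝓝 (((0 : ℝ) : ℂ) * conj (A j i))) :=
      ((Complex.continuous_ofReal.tendsto _).comp (hzero i j hB)).mul (hconj j i)
    have h2 : Tendsto (fun X : Matrix (Fin n) (Fin n) ℂ => X i j) U (𝓝 (((0 : ℝ) : ℂ) * conj (A j i))) := by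
      refine h1.congr' ?_
      filter_upwards [hW] with X hX
      have h3 := hX.2 i j
      have h4 : (W X i : ℂ) ≠ 0 := by exact_mod_cast (hX.1 i).ne'
      simp only [r]
      push_cast
      field_simp
      linear_combination -h3
    have h3 := tendsto_nhds_unique (hent i j) h2
    rw [h3]; simp
  let ℓ : Fin n → ℕ := fun j => (univ.filter fun k => ¬ B k j).card
  have hsub : ∀ i j, B i j → (univ.filter fun k => ¬ B k j) ⊆ univ.filter fun k => ¬ B k i := by
    intro i j hB k hk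
    rw [mem_filter] at hk ⊢
    exact ⟨hk.1, fun h => hk.2 (htrans k i j h hB)⟩
  have hlt : ∀ i j, ¬ B i j → ℓ i < ℓ j := by
    intro i j hB
    refine card_lt_card ((Finset.ssubset_iff_of_subset (hsub j i (htotal i j hB))).mpr ⟨i, ?_, ?_⟩)
    · rw [mem_filter]; exact ⟨mem_univ _, hB⟩
    · rw [mem_filter]; exact fun h => h.2 (hrefl i)
  have hle : ∀ i j, B i j → ℓ j ≤ ℓ i := fun i j hB => card_le_card (hsub i j hB)
  have hBB : ∀ i j, ℓ i = ℓ j → B i j := by
    intro i j h
    by_contra hh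
    exact (hlt i j hh).ne h
  rcases isEmpty_or_nonempty (Fin n) with hempty | hnonempty
  · exact ⟨ℓ, 1, fun i => isEmptyElim i, fun i => isEmptyElim i, fun i => isEmptyElim i⟩
  let rep : Fin n → Fin n := fun i => Function.invFun ℓ (ℓ i)
  have hrep : ∀ i, ℓ (rep i) = ℓ i := fun i => Function.invFun_eq ⟨i, rfl⟩
  choose w hw hwlim using fun i => hlim i (rep i) (hBB _ _ (hrep i).symm) (hBB _ _ (hrep i))
  refine ⟨ℓ, w, hw, ?_, ?_⟩
  · intro i j hij
    refine hvan i j fun hB => ?_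
    exact absurd (hle i j hB) (by omega)
  · intro i j hij
    have hr : rep j = rep i := by simp only [rep, hij]
    have hi := hwlim i
    have hj := hwlim j
    rw [hr] at hj
    have h1 : Tendsto (fun X : Matrix (Fin n) (Fin n) ℂ => ((r i (rep i) X : ℝ) : ℂ) * X i j) U
        (𝓝 ((w i : ℂ) * A i j)) :=
      ((Complex.continuous_ofReal.tendsto _).comp hi).mul (hent i j)
    have h2 : Tendsto (fun X : Matrix (Fin n) (Fin n) ℂ => ((r j (rep i) X : ℝ) : ℂ) * conj (X j i)) U
        (𝓝 ((w j : ℂ) * conj (A j i))) :=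
      ((Complex.continuous_ofReal.tendsto _).comp hj).mul (hconj j i)
    refine tendsto_nhds_unique h1 (h2.congr' ?_)
    filter_upwards [hW] with X hX
    have h3 := hX.2 i j
    have h4 : (W X (rep i) : ℂ) ≠ 0 := by exact_mod_cast (hX.1 (rep i)).ne'
    simp only [r]
    push_cast
    field_simp
    linear_combination -h3

end Pool.Agent.Helper5.GKK
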