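import Mathlib
import Pool.Agent.Helper5.GKK.Three

/-!
For every `n ≥ 4` there is an integral GKK matrix of order `n` that is not a limit of strict GKK
matrices.
-/

namespace Pool.Agent.Helper5.GKK

open Matrix Finset Filter Topology
open scoped ComplexOrder

/-- the example of order four -/
def ex4 : Matrix (Fin 4) (Fin 4) ℤ := !![2, 1, 2, 0; 3, 4, 1, 0; 3, 1, 4, 0; 4, 5, -1, 1]

/-- the leading block of order three of the example -/
def ex3 : Matrix (Fin 3) (Fin 3) ℂ := !![2, 1, 2; 3, 4, 1; 3, 1, 4]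

theorem isGKK_ex3 : IsGKK ex3 := by
  have hdet : ex3.det = 3 := by
    simp [ex3, det_fin_three]; norm_num
  rw [isGKK_three, hdet]
  refine ⟨⟨?_, ?_, by norm_num⟩, ?_, ?_⟩
  · intro i; fin_cases i <;> simp [ex3]
  · intro i j hij
    fin_cases i <;> fin_cases j <;> first | exact absurd rfl hij | (simp [ex3]; norm_num)
  · intro i j hij
    fin_cases i <;> fin_cases j <;> first | exact absurd rfl hij | (simp [ex3]; try norm_num)
  · intro i j k hij hki hkj
    fin_cases i <;> fin_cases j <;> first | exact absurd rfl hij | skip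
    all_goals fin_cases k <;> first | exact absurd rfl hki | exact absurd rfl hkj | (simp [ex3]; norm_num)

/-- the almost principal conditions used below -/
theorem strict_four {X : Matrix (Fin 4) (Fin 4) ℂ} (h : IsStrictGKK X) :
    0 < X 0 3 * X 3 0 ∧ 0 < X 2 3 * X 3 2 ∧
    0 < (X 0 3 * X 1 1 - X 0 1 * X 1 3) * (X 1 1 * X 3 0 - X 1 0 * X 3 1) ∧
    0 < (X 0 3 * (X 1 0 * X 2 2 - X 1 2 * X 2 0) + X 1 3 * (-(X 0 0 * X 2 2 - X 0 2 * X 2 0))
        + X 2 3 * (X 0 0 * X 1 2 - X 0 2 * X 1 0)) * (X.submatrix ![0, 2, 3] ![0, 1, 2]).det := by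
  refine ⟨?_, ?_, ?_, ?_⟩
  · have := h.2 1 ![0] ![3] ⟨by decide, by decide, by decide⟩
    simpa only [minor, det_fin_one, submatrix_apply, cons_val_zero] using this
  · have := h.2 1 ![2] ![3] ⟨by decide, by decide, by decide⟩
    simpa only [minor, det_fin_one, submatrix_apply, cons_val_zero] using this
  · have := h.2 2 ![0, 1] ![1, 3] ⟨by decide, by decide, by decide⟩
    simp only [minor, det_fin_two, submatrix_apply, cons_val_zero, cons_val_one] at this
    convert this using 1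
    ring
  · have := h.2 3 ![0, 1, 2] ![0, 2, 3] ⟨by decide, by decide, by decide⟩
    simp only [minor] at this
    convert this using 2
    rw [det_fin_three]
    simp
    ring


theorem re_mul_pos {r z : ℂ} (hr : 0 < r) (hz : 0 < z.re) : 0 < (r * z).re := by
  obtain ⟨h1, h2⟩ := Complex.pos_iff.mp hr
  rw [Complex.mul_re, ← h2, zero_mul, sub_zero]
  exact mul_pos h1 hz

theorem re_mul_neg {r z : ℂ} (hr : 0 < r) (hz : z.re < 0) : (r * z).re < 0 := by
  obtain ⟨h1, h2⟩ := Complex.pos_iff.mp hr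
  rw [Complex.mul_re, ← h2, zero_mul, sub_zero]
  exact mul_neg_of_pos_of_neg h1 hz

theorem ex4_not_mem : ex4.map ((↑) : ℤ → ℂ) ∉ closure {B : Matrix (Fin 4) (Fin 4) ℂ | IsStrictGKK B} := by
  intro hA
  rw [mem_closure_iff_frequently] at hA
  set A : Matrix (Fin 4) (Fin 4) ℂ := ex4.map ((↑) : ℤ → ℂ) with hAdef
  have hc : ∀ i j, ContinuousAt (fun X : Matrix (Fin 4) (Fin 4) ℂ => X i j) A := fun i j =>
    (continuous_apply_apply i j).continuousAt
  have v01 : A 0 1 = 1 := by simp [hAdef, ex4]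
  have v11 : A 1 1 = 4 := by simp [hAdef, ex4]
  have v30 : A 3 0 = 4 := by simp [hAdef, ex4]
  have v10 : A 1 0 = 3 := by simp [hAdef, ex4]
  have v31 : A 3 1 = 5 := by simp [hAdef, ex4]
  have v32 : A 3 2 = -1 := by simp [hAdef, ex4]
  have v00 : A 0 0 = 2 := by simp [hAdef, ex4]
  have v22 : A 2 2 = 4 := by simp [hAdef, ex4]
  have v02 : A 0 2 = 2 := by simp [hAdef, ex4]
  have v20 : A 2 0 = 3 := by simp [hAdef, ex4]
  have v12 : A 1 2 = 1 := by simp [hAdef, ex4]
  have v21 : A 2 1 = 1 := by simp [hAdef, ex4]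
  let al : Matrix (Fin 4) (Fin 4) ℂ → ℂ := fun X => X 1 0 * X 2 2 - X 1 2 * X 2 0
  let be : Matrix (Fin 4) (Fin 4) ℂ → ℂ := fun X => -(X 0 0 * X 2 2 - X 0 2 * X 2 0)
  let ga : Matrix (Fin 4) (Fin 4) ℂ → ℂ := fun X => X 0 0 * X 1 2 - X 0 2 * X 1 0
  let N' : Matrix (Fin 4) (Fin 4) ℂ → ℂ := fun X => X 1 1 * X 3 0 - X 1 0 * X 3 1
  let M' : Matrix (Fin 4) (Fin 4) ℂ → ℂ := fun X => (X.submatrix ![0, 2, 3] ![0, 1, 2]).det
  have cal : ContinuousAt al A := ((hc 1 0).mul (hc 2 2)).sub ((hc 1 2).mul (hc 2 0))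
  have cbe : ContinuousAt be A := (((hc 0 0).mul (hc 2 2)).sub ((hc 0 2).mul (hc 2 0))).neg
  have cga : ContinuousAt ga A := ((hc 0 0).mul (hc 1 2)).sub ((hc 0 2).mul (hc 1 0))
  have cN : ContinuousAt N' A := ((hc 1 1).mul (hc 3 0)).sub ((hc 1 0).mul (hc 3 1))
  have cM : ContinuousAt M' A :=
    (Continuous.matrix_det (continuous_id.matrix_submatrix _ _)).continuousAt
  have vM : M' A = -1 := by
    simp only [M', det_fin_three, submatrix_apply]
    have g0 : (![0, 2, 3] : Fin 3 → Fin 4) 0 = 0 := rfl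
    have g1 : (![0, 2, 3] : Fin 3 → Fin 4) 1 = 2 := rfl
    have g2 : (![0, 2, 3] : Fin 3 → Fin 4) 2 = 3 := rfl
    have k0 : (![0, 1, 2] : Fin 3 → Fin 4) 0 = 0 := rfl
    have k1 : (![0, 1, 2] : Fin 3 → Fin 4) 1 = 1 := rfl
    have k2 : (![0, 1, 2] : Fin 3 → Fin 4) 2 = 2 := rfl
    rw [g0, g1, g2, k0, k1, k2, v00, v01, v02, v20, v21, v22, v30, v31, v32]
    norm_num
  have vN : N' A = 1 := by simp only [N', v11, v30, v10, v31]; norm_num
  have e1 : ∀ᶠ X in 𝓝 A, 0 < ((al X + be X * X 1 1 / X 0 1) / X 3 0).re := by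
    have hcont : ContinuousAt (fun X : Matrix (Fin 4) (Fin 4) ℂ => ((al X + be X * X 1 1 / X 0 1) / X 3 0).re) A := by
      refine Complex.continuous_re.continuousAt.comp ?_
      refine ContinuousAt.div (cal.add (ContinuousAt.div (cbe.mul (hc 1 1)) (hc 0 1) ?_)) (hc 3 0) ?_
      · rw [v01]; norm_num
      · rw [v30]; norm_num
    refine hcont.tendsto.eventually_const_lt ?_
    simp only [al, be, v00, v01, v02, v10, v11, v12, v20, v22, v30]
    norm_num
  have e2 : ∀ᶠ X in 𝓝 A, 0 < (-be X / (X 0 1 * N' X)).re := by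
    have hcont : ContinuousAt (fun X : Matrix (Fin 4) (Fin 4) ℂ => (-be X / (X 0 1 * N' X)).re) A := by
      refine Complex.continuous_re.continuousAt.comp ?_
      refine ContinuousAt.div cbe.neg ((hc 0 1).mul cN) ?_
      rw [v01, vN]; norm_num
    refine hcont.tendsto.eventually_const_lt ?_
    rw [vN]
    simp only [be, v00, v01, v02, v20, v22]
    norm_num
  have e3 : ∀ᶠ X in 𝓝 A, 0 < (ga X / X 3 2).re := by
    have hcont : ContinuousAt (fun X : Matrix (Fin 4) (Fin 4) ℂ => (ga X / X 3 2).re) A := by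
      refine Complex.continuous_re.continuousAt.comp ?_
      refine ContinuousAt.div cga (hc 3 2) ?_
      rw [v32]; norm_num
    refine hcont.tendsto.eventually_const_lt ?_
    simp only [ga, v00, v02, v10, v12, v32]
    norm_num
  have e4 : ∀ᶠ X in 𝓝 A, ((M' X)⁻¹).re < 0 := by
    have hcont : ContinuousAt (fun X : Matrix (Fin 4) (Fin 4) ℂ => ((M' X)⁻¹).re) A := by
      refine Complex.continuous_re.continuousAt.comp ?_
      refine ContinuousAt.inv₀ cM ?_
      rw [vM]; norm_num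
    refine hcont.tendsto.eventually_lt_const ?_
    rw [vM]; norm_num
  have e5 : ∀ᶠ X in 𝓝 A, X 0 1 ≠ 0 ∧ X 3 0 ≠ 0 ∧ X 3 2 ≠ 0 ∧ N' X ≠ 0 ∧ M' X ≠ 0 := by
    have h1 := (hc 0 1).eventually_ne (y := (0 : ℂ)) (by rw [v01]; norm_num)
    have h2 := (hc 3 0).eventually_ne (y := (0 : ℂ)) (by rw [v30]; norm_num)
    have h3 := (hc 3 2).eventually_ne (y := (0 : ℂ)) (by rw [v32]; norm_num)
    have h4 := cN.eventually_ne (y := (0 : ℂ)) (by rw [vN]; norm_num)
    have h5 := cM.eventually_ne (y := (0 : ℂ)) (by rw [vM]; norm_num)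
    filter_upwards [h1, h2, h3, h4, h5] with X g1 g2 g3 g4 g5
    exact ⟨g1, g2, g3, g4, g5⟩
  obtain ⟨X, hX, f1, f2, f3, f4, n01, n30, n32, nN, nM⟩ :=
    (hA.and_eventually (e1.and (e2.and (e3.and (e4.and e5))))).exists
  obtain ⟨s1, s2, s3, s4⟩ := strict_four hX
  set M : ℂ := X 0 3 * al X + X 1 3 * be X + X 2 3 * ga X with hM
  have hpos : M = (X 0 3 * X 3 0) * ((al X + be X * X 1 1 / X 0 1) / X 3 0)
      + ((X 0 3 * X 1 1 - X 0 1 * X 1 3) * N' X) * (-be X / (X 0 1 * N' X))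
      + (X 2 3 * X 3 2) * (ga X / X 3 2) := by
    rw [hM]
    field_simp
    ring
  have hneg : M = (M * M' X) * (M' X)⁻¹ := by field_simp
  have r1 : 0 < M.re := by
    rw [hpos, Complex.add_re, Complex.add_re]
    exact add_pos (add_pos (re_mul_pos s1 f1) (re_mul_pos s3 f2)) (re_mul_pos s2 f3)
  have r2 : M.re < 0 := by
    rw [hneg]
    exact re_mul_neg s4 f4
  linarith

/-- the example of order `n ≥ 4` -/
def exn (n : ℕ) : Matrix (Fin n) (Fin n) ℤ := Matrix.of fun i j =>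
  if h : (i : ℕ) < 4 ∧ (j : ℕ) < 4 then ex4 ⟨i, h.1⟩ ⟨j, h.2⟩ else if i = j then 1 else 0

theorem exn_spec {n : ℕ} (hn : 4 ≤ n) : IsGKK ((exn n).map ((↑) : ℤ → ℂ)) ∧
    (exn n).map ((↑) : ℤ → ℂ) ∉ closure {B : Matrix (Fin n) (Fin n) ℂ | IsStrictGKK B} := by
  constructor
  · refine isGKK_ext (m := 3) (by omega) ex3 _ ?_ ?_ isGKK_ex3
    · intro i j
      have hi : ((Fin.castLE (by omega : 3 ≤ n) i : Fin n) : ℕ) < 4 := by simp; omega
      have hj : ((Fin.castLE (by omega : 3 ≤ n) j : Fin n) : ℕ) < 4 := by simp; omega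
      simp only [map_apply, exn, of_apply]
      rw [dif_pos ⟨hi, hj⟩]
      fin_cases i <;> fin_cases j <;> simp [ex4, ex3, Fin.castLE]
    · intro i j hj
      simp only [map_apply, exn, of_apply]
      by_cases h : (i : ℕ) < 4 ∧ (j : ℕ) < 4
      · rw [dif_pos h]
        obtain ⟨hi, hj4⟩ := h
        have hj3 : (j : ℕ) = 3 := by omega
        have hij : i = j ↔ (i : ℕ) = 3 := by rw [Fin.ext_iff, hj3]
        simp only [hij]
        obtain ⟨i, hi'⟩ := i
        obtain ⟨j, hj'⟩ := j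
        simp only at hi hj3 ⊢
        subst hj3
        interval_cases i <;> simp [ex4]
      · rw [dif_neg h]
        split_ifs <;> simp
  · intro h
    have h1 := mem_closure_submatrix h (Fin.castLE hn) (Fin.strictMono_castLE hn)
    have h2 : ((exn n).map ((↑) : ℤ → ℂ)).submatrix (Fin.castLE hn) (Fin.castLE hn)
        = ex4.map ((↑) : ℤ → ℂ) := by
      ext i j
      simp [exn]
    rw [h2] at h1
    exact ex4_not_mem h1

end Pool.Agent.Helper5.GKK
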