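import Mathlib
import Pool.Agent.Helper5.GKK.Three

/-!
Every GKK matrix of order at most three is a limit of strict GKK matrices.
-/

namespace Pool.Agent.Helper5.GKK

open Matrix Finset Filter Topology
open scoped ComplexOrder

/-- matrices of order three with unit diagonal -/
def mat (a a' b b' c c' : ℂ) : Matrix (Fin 3) (Fin 3) ℂ := !![1, a, c'; a', 1, b; c, b', 1]

/-- closure of the set of strict GKK matrices -/
abbrev clo : Set (Matrix (Fin 3) (Fin 3) ℂ) := closure {B | IsStrictGKK B}

/-- the entrywise form of the GKK condition -/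
def G (a a' b b' c c' : ℂ) (x y z s : ℝ) : Prop :=
  a * a' = x ∧ b * b' = y ∧ c * c' = z ∧ a * b * c + a' * b' * c' = s ∧ 0 ≤ x ∧ 0 ≤ y ∧ 0 ≤ z ∧
  x < 1 ∧ y < 1 ∧ z < 1 ∧ s ≤ x + y * z ∧ s ≤ y + z * x ∧ s ≤ z + x * y ∧ 0 < 1 + s - x - y - z

theorem det_mat (a a' b b' c c' : ℂ) : (mat a a' b b' c c').det
    = 1 + (a * b * c + a' * b' * c') - a * a' - b * b' - c * c' := by
  simp [mat, det_fin_three]; ring

theorem ofReal_pos' {r : ℝ} (h : 0 < r) {z : ℂ} (hz : z = r) : 0 < z := by
  rw [hz]; exact_mod_cast h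

theorem strict_mat {a a' b b' c c' : ℂ} {x y z s : ℝ} (h1 : a * a' = x) (h2 : b * b' = y)
    (h3 : c * c' = z) (h4 : a * b * c + a' * b' * c' = s) (hx : 0 < x) (hy : 0 < y) (hz : 0 < z)
    (hx1 : x < 1) (hy1 : y < 1) (hz1 : z < 1) (g1 : s < x + y * z) (g2 : s < y + z * x)
    (g3 : s < z + x * y) (g4 : 0 < 1 + s - x - y - z) : IsStrictGKK (mat a a' b b' c c') := by
  have hd : (mat a a' b b' c c').det = ((1 + s - x - y - z : ℝ) : ℂ) := by
    rw [det_mat, h1, h2, h3, h4]; push_cast; ring
  rw [isStrictGKK_three, hd]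
  refine ⟨⟨?_, ?_, ?_⟩, ?_, ?_⟩
  · intro i; fin_cases i <;> simp [mat]
  · intro i j hij
    fin_cases i <;> fin_cases j <;> first | exact absurd rfl hij | skip
    · refine ofReal_pos' (r := 1 - x) (by linarith) ?_
      simp [mat]; linear_combination h1
    · refine ofReal_pos' (r := 1 - z) (by linarith) ?_
      simp [mat]; linear_combination h3
    · refine ofReal_pos' (r := 1 - x) (by linarith) ?_
      simp [mat]; linear_combination h1
    · refine ofReal_pos' (r := 1 - y) (by linarith) ?_
      simp [mat]; linear_combination h2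
    · refine ofReal_pos' (r := 1 - z) (by linarith) ?_
      simp [mat]; linear_combination h3
    · refine ofReal_pos' (r := 1 - y) (by linarith) ?_
      simp [mat]; linear_combination h2
  · exact_mod_cast g4
  · intro i j hij
    fin_cases i <;> fin_cases j <;> first | exact absurd rfl hij | skip
    · exact ofReal_pos' hx (by simp [mat]; linear_combination h1)
    · exact ofReal_pos' hz (by simp [mat]; linear_combination h3)
    · exact ofReal_pos' hx (by simp [mat]; linear_combination h1)
    · exact ofReal_pos' hy (by simp [mat]; linear_combination h2)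
    · exact ofReal_pos' hz (by simp [mat]; linear_combination h3)
    · exact ofReal_pos' hy (by simp [mat]; linear_combination h2)
  · have k0 : ∀ i : Fin 3, (mat a a' b b' c c') i i = 1 := by intro i; fin_cases i <;> rfl
    have k1 : (mat a a' b b' c c') 0 1 * (mat a a' b b' c c') 1 0 = x := h1
    have k2 : (mat a a' b b' c c') 1 2 * (mat a a' b b' c c') 2 1 = y := h2
    have k3 : (mat a a' b b' c c') 2 0 * (mat a a' b b' c c') 0 2 = z := h3
    have k1' : (mat a a' b b' c c') 1 0 * (mat a a' b b' c c') 0 1 = x := by rw [mul_comm]; exact k1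
    have k2' : (mat a a' b b' c c') 2 1 * (mat a a' b b' c c') 1 2 = y := by rw [mul_comm]; exact k2
    have k3' : (mat a a' b b' c c') 0 2 * (mat a a' b b' c c') 2 0 = z := by rw [mul_comm]; exact k3
    intro i j k hij hki hkj
    fin_cases i <;> fin_cases j <;> first | exact absurd rfl hij | skip
    all_goals fin_cases k <;> first | exact absurd rfl hki | exact absurd rfl hkj | skip
    all_goals simp only [Fin.zero_eta, Fin.mk_one, Fin.reduceFinMk, k0, k1, k2, k3, k1', k2', k3', one_mul]
    · exact ofReal_pos' (r := x + y * z - s) (by linarith) (by push_cast; ring)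
    · exact ofReal_pos' (r := z + x * y - s) (by linarith) (by push_cast; ring)
    · exact ofReal_pos' (r := x + y * z - s) (by linarith) (by push_cast; ring)
    · exact ofReal_pos' (r := y + z * x - s) (by linarith) (by push_cast; ring)
    · exact ofReal_pos' (r := z + x * y - s) (by linarith) (by push_cast; ring)
    · exact ofReal_pos' (r := y + z * x - s) (by linarith) (by push_cast; ring)

/-! ### symmetries -/

theorem IsStrictGKK.transpose {A : Matrix (Fin 3) (Fin 3) ℂ} (h : IsStrictGKK A) : IsStrictGKK Aᵀ := by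
  rw [isStrictGKK_three] at h ⊢
  obtain ⟨⟨h1, h2, h3⟩, h4, h5⟩ := h
  refine ⟨⟨h1, ?_, by rwa [det_transpose]⟩, ?_, ?_⟩
  · intro i j hij
    simp only [transpose_apply]
    have := h2 i j hij
    rwa [mul_comm (A i j)] at this
  · intro i j hij
    simp only [transpose_apply]
    have := h4 i j hij
    rwa [mul_comm (A i j)] at this
  · intro i j k hij hki hkj
    simp only [transpose_apply, det_transpose]
    have := h5 i j k hij hki hkj
    rwa [mul_comm (A i k), mul_comm (A j k)] at this

theorem IsStrictGKK.perm {A : Matrix (Fin 3) (Fin 3) ℂ} (h : IsStrictGKK A) (σ : Equiv.Perm (Fin 3)) :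
    IsStrictGKK (A.submatrix σ σ) := by
  rw [isStrictGKK_three] at h ⊢
  obtain ⟨⟨h1, h2, h3⟩, h4, h5⟩ := h
  refine ⟨⟨fun i => h1 _, fun i j hij => h2 _ _ (σ.injective.ne hij), by rwa [det_submatrix_equiv_self]⟩,
    fun i j hij => h4 _ _ (σ.injective.ne hij), fun i j k hij hki hkj => ?_⟩
  rw [det_submatrix_equiv_self]
  exact h5 _ _ _ (σ.injective.ne hij) (σ.injective.ne hki) (σ.injective.ne hkj)

theorem clo_tr {a a' b b' c c' : ℂ} (h : mat a' a b' b c' c ∈ clo) : mat a a' b b' c c' ∈ clo := by
  have hc : Continuous fun B : Matrix (Fin 3) (Fin 3) ℂ => Bᵀ := continuous_id.matrix_transpose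
  have h1 := map_mem_closure (f := fun B : Matrix (Fin 3) (Fin 3) ℂ => Bᵀ)
    (t := {B | IsStrictGKK B}) hc h fun B hB => IsStrictGKK.transpose hB
  have e : (mat a' a b' b c' c)ᵀ = mat a a' b b' c c' := by
    ext i j; fin_cases i <;> fin_cases j <;> rfl
  rwa [← e]

theorem clo_rot {a a' b b' c c' : ℂ} (h : mat b b' c c' a a' ∈ clo) : mat a a' b b' c c' ∈ clo := by
  have hc : Continuous fun B : Matrix (Fin 3) (Fin 3) ℂ => B.submatrix (finRotate 3).symm (finRotate 3).symm :=
    continuous_id.matrix_submatrix _ _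
  have h1 := map_mem_closure (f := fun B : Matrix (Fin 3) (Fin 3) ℂ =>
    B.submatrix (finRotate 3).symm (finRotate 3).symm) (t := {B | IsStrictGKK B}) hc h fun B hB =>
    IsStrictGKK.perm hB (finRotate 3).symm
  have e : (mat b b' c c' a a').submatrix (finRotate 3).symm (finRotate 3).symm = mat a a' b b' c c' := by
    ext i j; fin_cases i <;> fin_cases j <;> rfl
  rwa [← e]

theorem G.rot {a a' b b' c c' : ℂ} {x y z s : ℝ} (h : G a a' b b' c c' x y z s) :
    G b b' c c' a a' y z x s := by
  obtain ⟨h1, h2, h3, h4, h5, h6, h7, h8, h9, h10, h11, h12, h13, h14⟩ := h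
  refine ⟨h2, h3, h1, ?_, h6, h7, h5, h9, h10, h8, h12, h13, h11, by linarith⟩
  linear_combination h4

theorem G.tr {a a' b b' c c' : ℂ} {x y z s : ℝ} (h : G a a' b b' c c' x y z s) :
    G a' a b' b c' c x y z s := by
  obtain ⟨h1, h2, h3, h4, h5, h6, h7, h8, h9, h10, h11, h12, h13, h14⟩ := h
  exact ⟨by rw [mul_comm, h1], by rw [mul_comm, h2], by rw [mul_comm, h3], by rw [add_comm, h4],
    h5, h6, h7, h8, h9, h10, h11, h12, h13, h14⟩

/-! ### limits along paths -/

theorem clo_lim {a a' b b' c c' : ℝ → ℂ} (h1 : ContinuousAt a 0) (h2 : ContinuousAt a' 0)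
    (h3 : ContinuousAt b 0) (h4 : ContinuousAt b' 0) (h5 : ContinuousAt c 0) (h6 : ContinuousAt c' 0)
    (h : ∀ᶠ t in 𝓝[>] (0 : ℝ), mat (a t) (a' t) (b t) (b' t) (c t) (c' t) ∈ clo) :
    mat (a 0) (a' 0) (b 0) (b' 0) (c 0) (c' 0) ∈ clo := by
  have ht : Tendsto (fun t => mat (a t) (a' t) (b t) (b' t) (c t) (c' t)) (𝓝[>] (0 : ℝ))
      (𝓝 (mat (a 0) (a' 0) (b 0) (b' 0) (c 0) (c' 0))) := by
    refine Tendsto.mono_left ?_ nhdsWithin_le_nhds
    refine tendsto_pi_nhds.mpr fun i => tendsto_pi_nhds.mpr fun j => ?_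
    fin_cases i <;> fin_cases j
    · exact tendsto_const_nhds
    · exact h1
    · exact h6
    · exact h2
    · exact tendsto_const_nhds
    · exact h3
    · exact h5
    · exact h4
    · exact tendsto_const_nhds
  exact isClosed_closure.mem_of_tendsto ht h


theorem ev_pos {P : ℝ → Prop} (δ : ℝ) (hδ : 0 < δ) (h : ∀ t, 0 < t → t < δ → P t) :
    ∀ᶠ t in 𝓝[>] (0 : ℝ), P t := by
  filter_upwards [Ioo_mem_nhdsGT hδ] with t ht
  exact h t ht.1 ht.2

/-- decreasing the sum of two numbers with positive product -/
theorem exists_path {p q : ℂ} {P s : ℝ} (hP : 0 < P) (hpq : p * q = P) (hs : p + q = s) (hs0 : 0 ≤ s) :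
    ∃ u : ℝ → ℂ, ContinuousAt u 0 ∧ u 0 = 1 ∧ ∀ᶠ t in 𝓝[>] (0 : ℝ),
      (p * u t + q * (u t)⁻¹).im = 0 ∧ (p * u t + q * (u t)⁻¹).re < s := by
  have hre : p.re + q.re = s := by
    have := congrArg Complex.re hs; simpa using this
  have him : p.im + q.im = 0 := by
    have := congrArg Complex.im hs; simpa using this
  have hPre : p.re * q.re - p.im * q.im = P := by
    have := congrArg Complex.re hpq; simpa using this
  have hPim : p.re * q.im + p.im * q.re = 0 := by
    have := congrArg Complex.im hpq; simpa using this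
  by_cases hr : p.im = 0 ∧ p.re ≠ q.re
  · obtain ⟨hp, hne⟩ := hr
    have hq : q.im = 0 := by linarith
    rw [hp, hq] at hPre
    have hprod : 0 < p.re * q.re := by linarith
    have hpos : 0 < p.re ∧ 0 < q.re := by
      rcases lt_trichotomy p.re 0 with h | h | h
      · exfalso
        have : q.re < 0 := by
          by_contra hh
          nlinarith [mul_nonneg (neg_nonneg.mpr h.le) (not_lt.mp hh)]
        linarith
      · rw [h] at hprod; simp at hprod
      · refine ⟨h, ?_⟩
        by_contra hh
        nlinarith [mul_nonneg h.le (neg_nonneg.mpr (not_lt.mp hh))]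
    have hpc : p = (p.re : ℂ) := by apply Complex.ext <;> simp [hp]
    have hqc : q = (q.re : ℂ) := by apply Complex.ext <;> simp [hq]
    set pr := p.re with hpr
    set qr := q.re with hqr
    have key : ∀ v : ℝ, p * (v : ℂ) + q * (v : ℂ)⁻¹ = ((pr * v + qr * v⁻¹ : ℝ) : ℂ) := by
      intro v; rw [hpc, hqc]; push_cast; ring
    rcases lt_or_gt_of_ne hne with h | h
    · refine ⟨fun t => ((1 + t : ℝ) : ℂ), ?_, by simp, ?_⟩
      · exact (Complex.continuous_ofReal.comp (by fun_prop)).continuousAt
      · refine ev_pos ((qr - pr) / pr) (div_pos (by linarith) hpos.1) fun t ht0 ht1 => ?_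
        rw [key]
        refine ⟨Complex.ofReal_im _, ?_⟩
        rw [Complex.ofReal_re]
        rw [lt_div_iff₀ hpos.1] at ht1
        have h1 : 0 < 1 + t := by linarith
        have h2 : qr * (1 + t)⁻¹ < qr - pr * t := by
          rw [← div_eq_mul_inv, div_lt_iff₀ h1]
          nlinarith
        linarith
    · have hd : 0 < (pr - qr) / pr := div_pos (by linarith) hpos.1
      refine ⟨fun t => ((1 - t : ℝ) : ℂ), ?_, by simp, ?_⟩
      · exact (Complex.continuous_ofReal.comp (by fun_prop)).continuousAt
      · refine ev_pos ((pr - qr) / pr) hd fun t ht0 ht1 => ?_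
        rw [key]
        refine ⟨Complex.ofReal_im _, ?_⟩
        rw [Complex.ofReal_re]
        rw [lt_div_iff₀ hpos.1] at ht1
        have h1 : 0 < 1 - t := by
          by_contra hh
          have : pr ≤ t * pr := by nlinarith
          linarith
        have h2 : qr * (1 - t)⁻¹ < qr + pr * t := by
          rw [← div_eq_mul_inv, div_lt_iff₀ h1]
          nlinarith
        linarith
  · have hqr : q.re = p.re := by
      by_cases hp : p.im = 0
      · by_contra hh
        exact hr ⟨hp, fun h => hh h.symm⟩
      · have h1 : q.im = -p.im := by linarith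
        rw [h1] at hPim
        have h2 : p.im * (q.re - p.re) = 0 := by linarith
        rcases mul_eq_zero.mp h2 with h | h
        · exact absurd h hp
        · linarith
    have hqi : q.im = -p.im := by linarith
    have hpre : 0 ≤ p.re := by linarith
    have hnz : 0 < p.re ∨ p.im ≠ 0 := by
      by_contra hh
      push Not at hh
      have h0 : p.re = 0 := le_antisymm hh.1 hpre
      rw [hqr, hqi, h0, hh.2] at hPre
      simp at hPre
      linarith
    obtain ⟨σ, hσ, hσ2, hσp⟩ : ∃ σ : ℝ, (σ = 1 ∨ σ = -1) ∧ σ ^ 2 = 1 ∧ 0 ≤ σ * p.im ∧ (p.im ≠ 0 → 0 < σ * p.im) := by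
      rcases le_or_gt 0 p.im with h | h
      · exact ⟨1, Or.inl rfl, by norm_num, by simpa using h, fun hh => by
          rw [one_mul]; exact lt_of_le_of_ne h (Ne.symm hh)⟩
      · exact ⟨-1, Or.inr rfl, by norm_num, by linarith, fun _ => by linarith⟩
    refine ⟨fun t => Complex.exp (((σ * t : ℝ) : ℂ) * Complex.I), ?_, by simp, ?_⟩
    · exact (Complex.continuous_exp.comp ((Complex.continuous_ofReal.comp (by fun_prop)).mul
        continuous_const)).continuousAt
    · refine ev_pos Real.pi Real.pi_pos fun t ht0 ht1 => ?_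
      have e1 : Complex.exp (((σ * t : ℝ) : ℂ) * Complex.I)
          = ⟨Real.cos (σ * t), Real.sin (σ * t)⟩ := by
        apply Complex.ext
        · rw [Complex.exp_ofReal_mul_I_re]
        · rw [Complex.exp_ofReal_mul_I_im]
      have e2 : (Complex.exp (((σ * t : ℝ) : ℂ) * Complex.I))⁻¹
          = ⟨Real.cos (σ * t), -Real.sin (σ * t)⟩ := by
        rw [← Complex.exp_neg, ← neg_mul, ← Complex.ofReal_neg]
        apply Complex.ext
        · rw [Complex.exp_ofReal_mul_I_re, Real.cos_neg]
        · rw [Complex.exp_ofReal_mul_I_im, Real.sin_neg]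
      beta_reduce
      rw [e2, e1]
      have hcos : Real.cos (σ * t) = Real.cos t := by
        rcases hσ with h | h <;> rw [h] <;> simp
      have hsin : Real.sin (σ * t) = σ * Real.sin t := by
        rcases hσ with h | h <;> rw [h] <;> simp
      constructor
      · simp only [Complex.add_im, Complex.mul_im]
        rw [hqr, hqi]; ring
      · simp only [Complex.add_re, Complex.mul_re]
        rw [hqr, hqi, hcos, hsin, ← hre, hqr]
        have hs1 : 0 < Real.sin t := Real.sin_pos_of_pos_of_lt_pi ht0 ht1
        have hc1 : Real.cos t < 1 := by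
          have := Real.cos_lt_cos_of_nonneg_of_le_pi le_rfl ht1.le ht0
          rwa [Real.cos_zero] at this
        have h3 : 0 < p.re * (1 - Real.cos t) + (σ * p.im) * Real.sin t := by
          rcases hnz with h | h
          · have := mul_pos h (sub_pos.mpr hc1)
            have := mul_nonneg hσp.1 hs1.le
            linarith
          · have := mul_nonneg hpre (sub_pos.mpr hc1).le
            have := mul_pos (hσp.2 h) hs1
            linarith
        nlinarith

theorem clo_pos {a a' b b' c c' : ℂ} {x y z s : ℝ} (h : G a a' b b' c c' x y z s) (hx : 0 < x)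
    (hy : 0 < y) (hz : 0 < z) : mat a a' b b' c c' ∈ clo := by
  obtain ⟨h1, h2, h3, h4, -, -, -, h8, h9, h10, h11, h12, h13, h14⟩ := h
  rcases lt_or_ge s 0 with hs | hs
  · refine subset_closure (strict_mat h1 h2 h3 h4 hx hy hz h8 h9 h10 ?_ ?_ ?_ h14)
    · have := mul_pos hy hz; linarith
    · have := mul_pos hz hx; linarith
    · have := mul_pos hx hy; linarith
  · have hP : 0 < x * y * z := by positivity
    have hpq : (a * b * c) * (a' * b' * c') = ((x * y * z : ℝ) : ℂ) := by
      push_cast; rw [← h1, ← h2, ← h3]; ring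
    obtain ⟨u, hu, hu0, hev⟩ := exists_path hP hpq h4 hs
    have hinv : ContinuousAt (fun t => (u t)⁻¹) 0 := hu.inv₀ (by rw [hu0]; exact one_ne_zero)
    have hlim := clo_lim (a := fun t => a * u t) (a' := fun t => a' * (u t)⁻¹) (b := fun _ => b)
      (b' := fun _ => b') (c := fun _ => c) (c' := fun _ => c') (continuousAt_const.mul hu)
      (continuousAt_const.mul hinv) continuousAt_const continuousAt_const continuousAt_const
      continuousAt_const ?_
    · simpa [hu0] using hlim
    · have hne : ∀ᶠ t in 𝓝[>] (0 : ℝ), u t ≠ 0 :=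
        (hu.eventually_ne (by rw [hu0]; exact one_ne_zero)).filter_mono nhdsWithin_le_nhds
      have hcs : ContinuousAt (fun t => ((a * b * c) * u t + (a' * b' * c') * (u t)⁻¹).re) 0 :=
        Complex.continuous_re.continuousAt.comp
          ((continuousAt_const.mul hu).add (continuousAt_const.mul hinv))
      have hdet : ∀ᶠ t in 𝓝[>] (0 : ℝ),
          x + y + z - 1 < ((a * b * c) * u t + (a' * b' * c') * (u t)⁻¹).re := by
        refine Filter.Eventually.filter_mono nhdsWithin_le_nhds (hcs.tendsto.eventually_const_lt ?_)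
        rw [hu0, inv_one, mul_one, mul_one, h4, Complex.ofReal_re]
        linarith
      filter_upwards [hev, hne, hdet] with t ht1 ht2 ht3
      refine subset_closure (strict_mat (x := x) (y := y) (z := z)
        (s := ((a * b * c) * u t + (a' * b' * c') * (u t)⁻¹).re) ?_ h2 h3 ?_ hx hy hz h8 h9 h10
        (by linarith [ht1.2]) (by linarith [ht1.2]) (by linarith [ht1.2]) (by linarith))
      · rw [← h1]; field_simp
      · have : (a * b * c) * u t + (a' * b' * c') * (u t)⁻¹
            = (((a * b * c) * u t + (a' * b' * c') * (u t)⁻¹).re : ℂ) := by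
          apply Complex.ext
          · simp
          · rw [ht1.1, Complex.ofReal_im]
        rw [← this]; ring

end Pool.Agent.Helper5.GKK
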