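import Mathlib
import Pool.Agent.Helper5.GKK.Small

/-!
Every GKK matrix of order at most three is a limit of strict GKK matrices: degenerate cases and the
conclusion.
-/

namespace Pool.Agent.Helper5.GKK

open Matrix Finset Filter Topology
open scoped ComplexOrder ComplexConjugate

variable {a a' b b' c c' : ℂ} {x y z s : ℝ}

/-- one of the products vanishes -/
theorem clo_one (h : G a a' b b' c c' 0 y z s) (ha : a = 0) (hy : 0 < y) (hz : 0 < z) :
    mat a a' b b' c c' ∈ clo := by
  subst ha
  obtain ⟨-, h2, h3, h4, -, -, -, -, h9, h10, h11, -, -, h14⟩ := h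
  rw [zero_mul, zero_mul, zero_add] at h4
  have hyz : 0 < y * z := mul_pos hy hz
  have hb : b ≠ 0 := by rintro rfl; rw [zero_mul] at h2; exact hy.ne' (by exact_mod_cast h2.symm)
  have hb' : b' ≠ 0 := by rintro rfl; rw [mul_zero] at h2; exact hy.ne' (by exact_mod_cast h2.symm)
  have hc : c ≠ 0 := by rintro rfl; rw [zero_mul] at h3; exact hz.ne' (by exact_mod_cast h3.symm)
  have hc' : c' ≠ 0 := by rintro rfl; rw [mul_zero] at h3; exact hz.ne' (by exact_mod_cast h3.symm)
  have hyz2 : b * b' * (c * c') = ((y * z : ℝ) : ℂ) := by rw [h2, h3]; push_cast; ring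
  by_cases ha' : a' = 0
  · subst ha'
    have hs : s = 0 := by
      have : (s : ℂ) = 0 := by rw [← h4]; ring
      exact_mod_cast this
    subst hs
    have hlim := clo_lim (a := fun t : ℝ => (t : ℂ) * (b' * c')) (a' := fun t : ℝ => (t : ℂ) * (b * c))
      (b := fun _ => b) (b' := fun _ => b') (c := fun _ => c) (c' := fun _ => c')
      (Continuous.continuousAt (by fun_prop)) (Continuous.continuousAt (by fun_prop))
      continuousAt_const continuousAt_const continuousAt_const continuousAt_const ?_
    · simpa using hlim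
    · refine ev_pos 1 one_pos fun t ht0 ht1 => ?_
      have ht2 : 0 < t ^ 2 := by positivity
      have hyz1 : y * z < 1 := by nlinarith
      refine clo_pos (x := t ^ 2 * (y * z)) (y := y) (z := z) (s := 2 * t * (y * z))
        ⟨?_, h2, h3, ?_, by positivity, hy.le, hz.le, ?_, h9, h10, ?_, ?_, ?_, ?_⟩ (by positivity) hy hz
      · push_cast; rw [← h2, ← h3]; ring
      · push_cast; rw [← h2, ← h3]; ring
      · nlinarith
      · nlinarith [mul_nonneg (sq_nonneg (1 - t)) hyz.le]
      · -- 2 t y z ≤ y + z (t² y z)
        have h5 : 2 * t * z ≤ 1 + t ^ 2 * z ^ 2 := by nlinarith [sq_nonneg (1 - t * z)]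
        nlinarith
      · have h5 : 2 * t * y ≤ 1 + t ^ 2 * y ^ 2 := by nlinarith [sq_nonneg (1 - t * y)]
        nlinarith
      · nlinarith [mul_pos ht0 hyz]
  · have hs : s ≠ 0 := by
      rintro rfl
      have : a' * b' * c' ≠ 0 := mul_ne_zero (mul_ne_zero ha' hb') hc'
      exact this (by rw [h4]; simp)
    have hs1 : s ≤ y * z := by linarith
    rcases lt_or_gt_of_ne hs with hs0 | hs0
    · have hlim := clo_lim (a := fun t : ℝ => -(t : ℂ) * (b' * c')) (a' := fun _ => a')
        (b := fun _ => b) (b' := fun _ => b') (c := fun _ => c) (c' := fun _ => c')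
        (Continuous.continuousAt (by fun_prop)) continuousAt_const
        continuousAt_const continuousAt_const continuousAt_const continuousAt_const ?_
      · simpa using hlim
      · have hD : 0 < 1 + s - y - z := by linarith
        have hE : 0 < y * z - s + 1 := by linarith
        refine ev_pos (min ((1 + s - y - z) / (y * z - s + 1)) (1 / (1 - s)))
          (lt_min (div_pos hD hE) (div_pos one_pos (by linarith))) fun t ht0 ht1 => ?_
        have ht2 : t * (y * z - s + 1) < 1 + s - y - z := by
          have := lt_of_lt_of_le ht1 (min_le_left _ _)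
          rwa [lt_div_iff₀ hE] at this
        have ht3 : t * (1 - s) < 1 := by
          have := lt_of_lt_of_le ht1 (min_le_right _ _)
          rwa [lt_div_iff₀ (by linarith)] at this
        have hts : 0 < t * (-s) := mul_pos ht0 (by linarith)
        have htyz : 0 < t * (y * z) := mul_pos ht0 hyz
        refine clo_pos (x := t * (-s)) (y := y) (z := z) (s := s - t * (y * z))
          ⟨?_, h2, h3, ?_, hts.le, hy.le, hz.le, ?_, h9, h10, ?_, ?_, ?_, ?_⟩ hts hy hz
        · push_cast; rw [← h4]; ring
        · push_cast; rw [← h4, ← h2, ← h3]; ring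
        · nlinarith
        · nlinarith
        · nlinarith [mul_pos hz hts]
        · nlinarith [mul_pos hy hts]
        · nlinarith
    · have hlim := clo_lim (a := fun t : ℝ => (t : ℂ) * (b' * c')) (a' := fun _ => a')
        (b := fun _ => b) (b' := fun _ => b') (c := fun _ => c) (c' := fun _ => c')
        (Continuous.continuousAt (by fun_prop)) continuousAt_const
        continuousAt_const continuousAt_const continuousAt_const continuousAt_const ?_
      · simpa using hlim
      · refine ev_pos 1 one_pos fun t ht0 ht1 => ?_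
        have hts : 0 < t * s := mul_pos ht0 hs0
        have htyz : 0 < t * (y * z) := mul_pos ht0 hyz
        have hyz1 : y * z < 1 := by nlinarith
        have hys : 0 ≤ y - s := by nlinarith
        have hzs : 0 ≤ z - s := by nlinarith
        refine clo_pos (x := t * s) (y := y) (z := z) (s := s + t * (y * z))
          ⟨?_, h2, h3, ?_, hts.le, hy.le, hz.le, ?_, h9, h10, ?_, ?_, ?_, ?_⟩ hts hy hz
        · push_cast; rw [← h4]; ring
        · push_cast; rw [← h4, ← h2, ← h3]; ring
        · nlinarith
        · nlinarith [mul_nonneg (sub_nonneg.mpr hs1) (sub_pos.mpr ht1).le]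
        · have h5 : 0 ≤ 1 - t * z := by nlinarith
          nlinarith [mul_nonneg hys h5]
        · have h5 : 0 ≤ 1 - t * y := by nlinarith
          nlinarith [mul_nonneg hzs h5]
        · nlinarith [mul_nonneg ht0.le (sub_nonneg.mpr hs1)]

/-- two products vanish -/
theorem clo_two_a (h : G a a' b b' c c' 0 0 z s) (ha : a = 0) (hb : b = 0) (hz : 0 < z) :
    mat a a' b b' c c' ∈ clo := by
  subst ha hb
  have key : ∀ (b' : ℂ) (s : ℝ), G 0 a' 0 b' c c' 0 0 z s → b' ≠ 0 → mat 0 a' 0 b' c c' ∈ clo := by
    rintro b' s ⟨-, h2, h3, h4, -, -, -, -, h9, h10, h11, -, -, h14⟩ hb'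
    have hlim := clo_lim (a := fun _ => (0 : ℂ)) (a' := fun _ => a')
        (b := fun t : ℝ => (t : ℂ) / b') (b' := fun _ => b') (c := fun _ => c) (c' := fun _ => c')
        continuousAt_const continuousAt_const (Continuous.continuousAt (by fun_prop))
        continuousAt_const continuousAt_const continuousAt_const ?_
    · simpa using hlim
    · refine ev_pos (min (1 + s - z) 1) (lt_min (by linarith) one_pos) fun t ht0 ht1 => ?_
      have ht2 := lt_of_lt_of_le ht1 (min_le_left _ _)
      have ht3 := lt_of_lt_of_le ht1 (min_le_right _ _)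
      have htz : 0 < t * z := mul_pos ht0 hz
      refine clo_one (y := t) (z := z) (s := s) ⟨by simp, ?_, h3, ?_, le_rfl, ht0.le, hz.le, one_pos, ht3,
        h10, ?_, ?_, ?_, ?_⟩ rfl ht0 hz
      · field_simp
      · rw [← h4]; ring
      all_goals nlinarith
  by_cases hb' : b' = 0
  · subst hb'
    obtain ⟨-, h2, h3, h4, -, -, -, -, h9, h10, h11, -, -, h14⟩ := h
    have hs : s = 0 := by
      have : (s : ℂ) = 0 := by rw [← h4]; ring
      exact_mod_cast this
    subst hs
    have hc' : c' ≠ 0 := by rintro rfl; rw [mul_zero] at h3; exact hz.ne' (by exact_mod_cast h3.symm)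
    by_cases ha' : a' = 0
    · subst ha'
      have hlim := clo_lim (a := fun _ => (0 : ℂ)) (a' := fun _ => 0)
        (b := fun _ => 0) (b' := fun t : ℝ => (t : ℂ)) (c := fun _ => c) (c' := fun _ => c')
        continuousAt_const continuousAt_const continuousAt_const (Continuous.continuousAt (by fun_prop))
        continuousAt_const continuousAt_const ?_
      · simpa using hlim
      · refine ev_pos 1 one_pos fun t ht0 ht1 => ?_
        exact key _ 0 ⟨by simp, by simp, h3, by simp, le_rfl, le_rfl, hz.le, one_pos, one_pos, h10,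
          by simp, by simp, by simpa using hz.le, h14⟩ (by exact_mod_cast ht0.ne')
    · have hac : a' * c' ≠ 0 := mul_ne_zero ha' hc'
      have hN : 0 < Complex.normSq (a' * c') := Complex.normSq_pos.mpr hac
      have hlim := clo_lim (a := fun _ => (0 : ℂ)) (a' := fun _ => a')
        (b := fun _ => 0) (b' := fun t : ℝ => -(t : ℂ) * conj (a' * c')) (c := fun _ => c) (c' := fun _ => c')
        continuousAt_const continuousAt_const continuousAt_const (Continuous.continuousAt (by fun_prop))
        continuousAt_const continuousAt_const ?_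
      · simpa using hlim
      · have hD : 0 < 1 - z := by linarith
        refine ev_pos ((1 - z) / Complex.normSq (a' * c')) (div_pos hD hN) fun t ht0 ht1 => ?_
        rw [lt_div_iff₀ hN] at ht1
        have htN : 0 < t * Complex.normSq (a' * c') := mul_pos ht0 hN
        refine key _ (-(t * Complex.normSq (a' * c'))) ⟨by simp, by simp, h3, ?_, le_rfl, le_rfl, hz.le,
          one_pos, one_pos, h10, ?_, ?_, ?_, ?_⟩ ?_
        · have := Complex.mul_conj (a' * c')
          push_cast
          rw [← this]; ring
        · linarith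
        · linarith
        · linarith
        · linarith
        · refine mul_ne_zero (neg_ne_zero.mpr (by exact_mod_cast ht0.ne')) ?_
          simpa using ⟨ha', hc'⟩
  · exact key b' s h hb'

theorem clo_two_c (h : G a a' b b' c c' 0 0 z s) (ha : a = 0) (hb' : b' = 0) (ha' : a' ≠ 0) (hb : b ≠ 0)
    (hz : 0 < z) : mat a a' b b' c c' ∈ clo := by
  subst ha hb'
  obtain ⟨-, -, h3, h4, -, -, -, -, -, h10, -, -, -, h14⟩ := h
  have hs : s = 0 := by
    have : (s : ℂ) = 0 := by rw [← h4]; ring
    exact_mod_cast this
  subst hs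
  have hc : c ≠ 0 := by rintro rfl; rw [zero_mul] at h3; exact hz.ne' (by exact_mod_cast h3.symm)
  set κ : ℂ := b * c / a' with hκ
  have hκ0 : κ ≠ 0 := div_ne_zero (mul_ne_zero hb hc) ha'
  set N : ℝ := Complex.normSq κ with hN
  have hNc : (N : ℂ) = κ * conj κ := (Complex.mul_conj κ).symm
  have hN0 : 0 < N := Complex.normSq_pos.mpr hκ0
  have hNr : N = κ.re ^ 2 + κ.im ^ 2 := by rw [hN, Complex.normSq_apply]; ring
  have hlim := clo_lim (a := fun t : ℝ => (t : ℂ) * z / a') (a' := fun _ => a')
    (b := fun _ => b) (b' := fun t : ℝ => (t : ℂ) * N / b) (c := fun _ => c) (c' := fun _ => c')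
    (Continuous.continuousAt (by fun_prop)) continuousAt_const continuousAt_const
    (Continuous.continuousAt (by fun_prop)) continuousAt_const continuousAt_const ?_
  · simpa using hlim
  · have hD : 0 < 1 - z := by linarith
    have hE : 0 < z + N + 2 * z * |κ.re| + 1 := by positivity
    refine ev_pos ((1 - z) / (z + N + 2 * z * |κ.re| + 1)) (div_pos hD hE) fun t ht0 ht1 => ?_
    rw [lt_div_iff₀ hE] at ht1
    have htz : 0 < t * z := mul_pos ht0 hz
    have htN : 0 < t * N := mul_pos ht0 hN0
    have htk : 0 ≤ t * z * |κ.re| := by positivity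
    have htk1 : -(t * z * |κ.re|) ≤ t * z * κ.re := by
      rw [← mul_neg]; exact mul_le_mul_of_nonneg_left (neg_abs_le _) htz.le
    refine clo_pos (x := t * z) (y := t * N) (z := z) (s := 2 * (t * z) * κ.re)
      ⟨?_, ?_, h3, ?_, htz.le, htN.le, hz.le, ?_, ?_, h10, ?_, ?_, ?_, ?_⟩ htz htN hz
    · push_cast; field_simp
    · push_cast; field_simp
    · have e1 : (t : ℂ) * z / a' * b * c = t * z * κ := by rw [hκ]; field_simp
      have e2 : a' * ((t : ℂ) * N / b) * c' = t * z * conj κ := by
        have e3 : a' * c' / b = z / κ := by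
          rw [hκ, ← h3]; field_simp
        calc a' * ((t : ℂ) * N / b) * c' = t * N * (a' * c' / b) := by ring
          _ = t * (κ * conj κ) * (z / κ) := by rw [e3, hNc]
          _ = t * z * conj κ := by field_simp
      rw [e1, e2]
      have e4 : κ + conj κ = ((2 * κ.re : ℝ) : ℂ) := by rw [Complex.add_conj]
      push_cast
      have e5 : κ + conj κ = 2 * (κ.re : ℂ) := by rw [e4]; push_cast; ring
      linear_combination (t * z : ℂ) * e5
    · nlinarith
    · nlinarith
    · have h5 : 2 * κ.re ≤ 1 + N := by rw [hNr]; nlinarith [sq_nonneg (κ.re - 1), sq_nonneg κ.im]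
      nlinarith
    · have h5 : 2 * z * κ.re ≤ N + z ^ 2 := by rw [hNr]; nlinarith [sq_nonneg (κ.re - z), sq_nonneg κ.im]
      nlinarith
    · have h5 : 2 * t * κ.re ≤ 1 + t ^ 2 * N := by
        rw [hNr]; nlinarith [sq_nonneg (t * κ.re - 1), mul_nonneg (sq_nonneg t) (sq_nonneg κ.im)]
      nlinarith
    · nlinarith

theorem clo_two (h : G a a' b b' c c' 0 0 z s) (hz : 0 < z) : mat a a' b b' c c' ∈ clo := by
  have h1 := h.1
  have h2 := h.2.1
  rw [Complex.ofReal_zero, mul_eq_zero] at h1 h2
  by_cases ha : a = 0
  · by_cases hb : b = 0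
    · exact clo_two_a h ha hb hz
    · have hb' : b' = 0 := h2.resolve_left hb
      by_cases ha' : a' = 0
      · exact clo_tr (clo_two_a h.tr ha' hb' hz)
      · exact clo_two_c h ha hb' ha' hb hz
  · have ha' : a' = 0 := h1.resolve_left ha
    by_cases hb' : b' = 0
    · exact clo_tr (clo_two_a h.tr ha' hb' hz)
    · have hb : b = 0 := h2.resolve_right hb'
      exact clo_tr (clo_two_c h.tr ha' hb ha hb' hz)

/-- all products vanish -/
theorem clo_three_a (h : G a a' b b' c c' 0 0 0 s) (hp : a * b * c ≠ 0) : mat a a' b b' c c' ∈ clo := by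
  obtain ⟨h1, h2, h3, h4, -, -, -, -, -, -, h11, -, -, h14⟩ := h
  have ha : a ≠ 0 := by rintro rfl; simp at hp
  have hb : b ≠ 0 := by rintro rfl; simp at hp
  have hc : c ≠ 0 := by rintro rfl; simp at hp
  rw [Complex.ofReal_zero] at h1 h2 h3
  have ha' : a' = 0 := (mul_eq_zero.mp h1).resolve_left ha
  have hb' : b' = 0 := (mul_eq_zero.mp h2).resolve_left hb
  have hc' : c' = 0 := (mul_eq_zero.mp h3).resolve_left hc
  subst ha' hb' hc'
  have hlim := clo_lim (a := fun _ => a) (a' := fun _ => 0) (b := fun _ => b) (b' := fun _ => 0)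
    (c := fun _ => c) (c' := fun t : ℝ => (t : ℂ) / c) continuousAt_const continuousAt_const
    continuousAt_const continuousAt_const continuousAt_const (Continuous.continuousAt (by fun_prop)) ?_
  · simpa using hlim
  · refine ev_pos (1 + s) (by linarith) fun t ht0 ht1 => ?_
    refine clo_two (z := t) (s := s) ⟨by simp, by simp, ?_, ?_, le_rfl, le_rfl, ht0.le, one_pos,
      one_pos, ?_, ?_, ?_, ?_, ?_⟩ ht0
    · field_simp
    · rw [← h4]; ring
    all_goals linarith

theorem clo_three_b (h : G a a' b b' c c' 0 0 0 s) (h1 : a * b = 0) (h2 : a' * b' = 0) :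
    mat a a' b b' c c' ∈ clo := by
  obtain ⟨g1, g2, h3, h4, -, -, -, -, -, -, -, -, -, -⟩ := h
  have key : ∀ (t : ℝ) (γ γ' : ℂ), 0 < t → t < 1 → γ * γ' = t → mat a a' b b' γ γ' ∈ clo := by
    intro t γ γ' ht0 ht1 hγ
    refine clo_two (z := t) (s := 0) ⟨g1, g2, hγ, ?_, le_rfl, le_rfl, ht0.le, one_pos,
      one_pos, ht1, by simp, by simp, by simpa using ht0.le, by linarith⟩ ht0
    rw [h1, h2]; simp
  rw [Complex.ofReal_zero, mul_eq_zero] at h3
  by_cases hc : c = 0
  · subst hc
    by_cases hc' : c' = 0
    · subst hc'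
      have hlim := clo_lim (a := fun _ => a) (a' := fun _ => a') (b := fun _ => b) (b' := fun _ => b')
        (c := fun t : ℝ => (t : ℂ)) (c' := fun t : ℝ => (t : ℂ)) continuousAt_const continuousAt_const
        continuousAt_const continuousAt_const (Continuous.continuousAt (by fun_prop))
        (Continuous.continuousAt (by fun_prop)) ?_
      · simpa using hlim
      · refine ev_pos 1 one_pos fun t ht0 ht1 => ?_
        exact key (t * t) _ _ (by positivity) (by nlinarith) (by push_cast; ring)
    · have hN : 0 < Complex.normSq c' := Complex.normSq_pos.mpr hc'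
      have hlim := clo_lim (a := fun _ => a) (a' := fun _ => a') (b := fun _ => b) (b' := fun _ => b')
        (c := fun t : ℝ => (t : ℂ) * conj c') (c' := fun _ => c') continuousAt_const continuousAt_const
        continuousAt_const continuousAt_const (Continuous.continuousAt (by fun_prop))
        continuousAt_const ?_
      · simpa using hlim
      · refine ev_pos (1 / Complex.normSq c') (by positivity) fun t ht0 ht1 => ?_
        rw [lt_div_iff₀ hN] at ht1
        refine key (t * Complex.normSq c') _ _ (by positivity) ht1 ?_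
        push_cast; rw [← Complex.mul_conj]; ring
  · have hc' : c' = 0 := h3.resolve_left hc
    subst hc'
    have hN : 0 < Complex.normSq c := Complex.normSq_pos.mpr hc
    have hlim := clo_lim (a := fun _ => a) (a' := fun _ => a') (b := fun _ => b) (b' := fun _ => b')
      (c := fun _ => c) (c' := fun t : ℝ => (t : ℂ) * conj c) continuousAt_const continuousAt_const
      continuousAt_const continuousAt_const continuousAt_const
      (Continuous.continuousAt (by fun_prop)) ?_
    · simpa using hlim
    · refine ev_pos (1 / Complex.normSq c) (by positivity) fun t ht0 ht1 => ?_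
      rw [lt_div_iff₀ hN] at ht1
      refine key (t * Complex.normSq c) _ _ (by positivity) ht1 ?_
      push_cast; rw [← Complex.mul_conj]; ring

theorem clo_three (h : G a a' b b' c c' 0 0 0 s) : mat a a' b b' c c' ∈ clo := by
  by_cases hp : a * b * c = 0
  swap
  · exact clo_three_a h hp
  by_cases hq : a' * b' * c' = 0
  swap
  · exact clo_tr (clo_three_a h.tr hq)
  have h1 := h.1
  rw [Complex.ofReal_zero, mul_eq_zero] at h1
  by_cases hab : a * b = 0 ∧ a' * b' = 0
  · exact clo_three_b h hab.1 hab.2
  · refine clo_rot (clo_rot (clo_three_b h.rot.rot ?_ ?_))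
    · by_contra hh
      have hc : c ≠ 0 := left_ne_zero_of_mul hh
      have ha : a ≠ 0 := right_ne_zero_of_mul hh
      have ha' : a' = 0 := h1.resolve_left ha
      exact hab ⟨(mul_eq_zero.mp hp).resolve_right hc, by rw [ha', zero_mul]⟩
    · by_contra hh
      have hc : c' ≠ 0 := left_ne_zero_of_mul hh
      have ha' : a' ≠ 0 := right_ne_zero_of_mul hh
      have ha : a = 0 := h1.resolve_right ha'
      exact hab ⟨by rw [ha, zero_mul], (mul_eq_zero.mp hq).resolve_right hc⟩

theorem clo_one' (h : G a a' b b' c c' 0 y z s) (hy : 0 < y) (hz : 0 < z) : mat a a' b b' c c' ∈ clo := by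
  have h1 := h.1
  rw [Complex.ofReal_zero, mul_eq_zero] at h1
  rcases h1 with h1 | h1
  · exact clo_one h h1 hy hz
  · exact clo_tr (clo_one h.tr h1 hy hz)

theorem clo_all (h : G a a' b b' c c' x y z s) : mat a a' b b' c c' ∈ clo := by
  have hx := h.2.2.2.2.1
  have hy := h.2.2.2.2.2.1
  have hz := h.2.2.2.2.2.2.1
  rcases hx.eq_or_lt with rfl | hx <;> rcases hy.eq_or_lt with rfl | hy <;>
    rcases hz.eq_or_lt with rfl | hz
  · exact clo_three h
  · exact clo_two h hz
  · exact clo_rot (clo_rot (clo_two h.rot.rot hy))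
  · exact clo_one' h hy hz
  · exact clo_rot (clo_two h.rot hx)
  · exact clo_rot (clo_one' h.rot hz hx)
  · exact clo_rot (clo_rot (clo_one' h.rot.rot hx hy))
  · exact clo_pos h hx hy hz

end Pool.Agent.Helper5.GKK
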