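import Mathlib
import Pool.Agent.Helper5.GKK.Small2

/-!
Every GKK matrix of order at most three is a limit of strict GKK matrices: conclusion.
-/

namespace Pool.Agent.Helper5.GKK

open Matrix Finset Filter Topology
open scoped ComplexOrder

theorem pos_real {z : ℂ} (h : 0 < z) : ∃ r : ℝ, 0 < r ∧ z = r := by
  obtain ⟨h1, h2⟩ := Complex.pos_iff.mp h
  exact ⟨z.re, h1, by apply Complex.ext <;> simp [← h2]⟩

theorem nonneg_real {z : ℂ} (h : 0 ≤ z) : ∃ r : ℝ, 0 ≤ r ∧ z = r := by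
  obtain ⟨h1, h2⟩ := Complex.nonneg_iff.mp h
  exact ⟨z.re, h1, by apply Complex.ext <;> simp [← h2]⟩

theorem scale_strict {d : Fin 3 → ℝ} (hd : ∀ i, 0 < d i) {M : Matrix (Fin 3) (Fin 3) ℂ} (h : IsStrictGKK M) :
    IsStrictGKK (Matrix.of fun i j => (d i : ℂ) * M i j) := by
  have hc : ∀ i, (0 : ℂ) < d i := fun i => by exact_mod_cast hd i
  rw [isStrictGKK_three] at h ⊢
  obtain ⟨⟨h1, h2, h3⟩, h4, h5⟩ := h
  have hdet : (Matrix.of fun i j => (d i : ℂ) * M i j).det = (∏ i, (d i : ℂ)) * M.det := det_mul_column _ _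
  have hprod : (0 : ℂ) < ∏ i, (d i : ℂ) := by
    rw [Fin.prod_univ_three]; exact mul_pos (mul_pos (hc 0) (hc 1)) (hc 2)
  refine ⟨⟨fun i => ?_, fun i j hij => ?_, ?_⟩, fun i j hij => ?_, fun i j k hij hki hkj => ?_⟩
  · exact mul_pos (hc i) (h1 i)
  · have := mul_pos (mul_pos (hc i) (hc j)) (h2 i j hij)
    simp only [of_apply]
    convert this using 1
    ring
  · rw [hdet]; exact mul_pos hprod h3
  · have := mul_pos (mul_pos (hc i) (hc j)) (h4 i j hij)
    simp only [of_apply]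
    convert this using 1
    ring
  · have := mul_pos (mul_pos hprod (hc k)) (h5 i j k hij hki hkj)
    rw [hdet]
    simp only [of_apply]
    have hpr : (∏ i, (d i : ℂ)) = d i * d j * d k := by
      rw [Fin.prod_univ_three]
      fin_cases i <;> fin_cases j <;> fin_cases k <;>
        first | exact absurd rfl hij | exact absurd rfl hki | exact absurd rfl hkj | (simp only [Fin.zero_eta, Fin.mk_one, Fin.reduceFinMk] <;> ring)
    rw [hpr] at this ⊢
    convert this using 1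
    ring

theorem clo_scale {d : Fin 3 → ℝ} (hd : ∀ i, 0 < d i) {M : Matrix (Fin 3) (Fin 3) ℂ} (h : M ∈ clo) :
    (Matrix.of fun i j => (d i : ℂ) * M i j) ∈ clo := by
  have hc : Continuous fun M : Matrix (Fin 3) (Fin 3) ℂ => (Matrix.of fun i j => (d i : ℂ) * M i j) := by
    refine continuous_matrix fun i j => ?_
    exact continuous_const.mul (continuous_id.matrix_elem i j)
  exact map_mem_closure (f := fun M : Matrix (Fin 3) (Fin 3) ℂ => (Matrix.of fun i j => (d i : ℂ) * M i j))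
    (t := {B | IsStrictGKK B}) hc h fun B hB => scale_strict hd hB

theorem clo_three_by_three (A : Matrix (Fin 3) (Fin 3) ℂ) (hA : IsGKK A) : A ∈ clo := by
  rw [isGKK_three] at hA
  obtain ⟨⟨h1, h2, h3⟩, h4, h5⟩ := hA
  choose d hd hdA using fun i => pos_real (h1 i)
  obtain ⟨X, hX, hXA⟩ := nonneg_real (h4 0 1 (by decide))
  obtain ⟨Y, hY, hYA⟩ := nonneg_real (h4 1 2 (by decide))
  obtain ⟨Z, hZ, hZA⟩ := nonneg_real (h4 2 0 (by decide))
  obtain ⟨D, hD, hDA⟩ := pos_real h3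
  have d0 := hd 0
  have d1 := hd 1
  have d2 := hd 2
  have hdet : A.det = A 0 0 * A 1 1 * A 2 2 + (A 0 1 * A 1 2 * A 2 0 + A 1 0 * A 2 1 * A 0 2)
      - A 2 2 * (A 0 1 * A 1 0) - A 0 0 * (A 1 2 * A 2 1) - A 1 1 * (A 2 0 * A 0 2) := by
    rw [det_fin_three]; ring
  have h2a : X < d 0 * d 1 := by
    have := h2 0 1 (by decide)
    rw [hdA, hdA, hXA] at this
    have h : (0 : ℝ) < d 0 * d 1 - X := by exact_mod_cast this
    linarith
  have h2b : Y < d 1 * d 2 := by
    have := h2 1 2 (by decide)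
    rw [hdA, hdA, hYA] at this
    have h : (0 : ℝ) < d 1 * d 2 - Y := by exact_mod_cast this
    linarith
  have h2c : Z < d 2 * d 0 := by
    have := h2 2 0 (by decide)
    rw [hdA, hdA, hZA] at this
    have h : (0 : ℝ) < d 2 * d 0 - Z := by exact_mod_cast this
    linarith
  -- the sum of the two cyclic products
  set S : ℝ := D - d 0 * d 1 * d 2 + d 2 * X + d 0 * Y + d 1 * Z with hS
  have hSA : A 0 1 * A 1 2 * A 2 0 + A 1 0 * A 2 1 * A 0 2 = S := by
    rw [hDA, hXA, hYA, hZA, hdA, hdA, hdA] at hdet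
    rw [hS]; push_cast
    linear_combination -hdet
  have h5c := h5 0 1 2 (by decide) (by decide) (by decide)
  have h5a := h5 1 2 0 (by decide) (by decide) (by decide)
  have h5b := h5 2 0 1 (by decide) (by decide) (by decide)
  have g1 : 0 ≤ (d 0 * d 2 - Z) * (d 1 * d 2 - Y) - d 2 * D := by
    rw [mul_comm (A 0 2), hZA, hYA, hdA, hdA, hdA, hDA] at h5c
    exact_mod_cast h5c
  have g2 : 0 ≤ (d 1 * d 0 - X) * (d 2 * d 0 - Z) - d 0 * D := by
    rw [mul_comm (A 1 0), hXA, hZA, hdA, hdA, hdA, hDA] at h5a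
    exact_mod_cast h5a
  have g3 : 0 ≤ (d 2 * d 1 - Y) * (d 0 * d 1 - X) - d 1 * D := by
    rw [mul_comm (A 2 1), hYA, hXA, hdA, hdA, hdA, hDA] at h5b
    exact_mod_cast h5b
  have hcd : ∀ i, (d i : ℂ) ≠ 0 := fun i => by exact_mod_cast (hd i).ne'
  have hM : mat (A 0 1 / d 0) (A 1 0 / d 1) (A 1 2 / d 1) (A 2 1 / d 2) (A 2 0 / d 2) (A 0 2 / d 0) ∈ clo := by
    refine clo_all (x := X / (d 0 * d 1)) (y := Y / (d 1 * d 2)) (z := Z / (d 2 * d 0))
      (s := S / (d 0 * d 1 * d 2)) ⟨?_, ?_, ?_, ?_, by positivity, by positivity, by positivity, ?_, ?_, ?_,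
        ?_, ?_, ?_, ?_⟩
    · push_cast; rw [← hXA]; field_simp
    · push_cast; rw [← hYA]; field_simp
    · push_cast; rw [← hZA]; field_simp
    · push_cast; rw [← hSA]; field_simp
    · rw [div_lt_one (by positivity)]; exact h2a
    · rw [div_lt_one (by positivity)]; exact h2b
    · rw [div_lt_one (by positivity)]; exact h2c
    · have e : X / (d 0 * d 1) + Y / (d 1 * d 2) * (Z / (d 2 * d 0)) - S / (d 0 * d 1 * d 2)
          = ((d 0 * d 2 - Z) * (d 1 * d 2 - Y) - d 2 * D) / (d 0 * d 1 * d 2 ^ 2) := by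
        rw [hS]; field_simp; ring
      have := div_nonneg g1 (show 0 ≤ d 0 * d 1 * d 2 ^ 2 by positivity)
      linarith
    · have e : Y / (d 1 * d 2) + Z / (d 2 * d 0) * (X / (d 0 * d 1)) - S / (d 0 * d 1 * d 2)
          = ((d 1 * d 0 - X) * (d 2 * d 0 - Z) - d 0 * D) / (d 0 ^ 2 * d 1 * d 2) := by
        rw [hS]; field_simp; ring
      have := div_nonneg g2 (show 0 ≤ d 0 ^ 2 * d 1 * d 2 by positivity)
      linarith
    · have e : Z / (d 2 * d 0) + X / (d 0 * d 1) * (Y / (d 1 * d 2)) - S / (d 0 * d 1 * d 2)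
          = ((d 2 * d 1 - Y) * (d 0 * d 1 - X) - d 1 * D) / (d 0 * d 1 ^ 2 * d 2) := by
        rw [hS]; field_simp; ring
      have := div_nonneg g3 (show 0 ≤ d 0 * d 1 ^ 2 * d 2 by positivity)
      linarith
    · have e : 1 + S / (d 0 * d 1 * d 2) - X / (d 0 * d 1) - Y / (d 1 * d 2) - Z / (d 2 * d 0)
          = D / (d 0 * d 1 * d 2) := by
        rw [hS]; field_simp; ring
      rw [e]; positivity
  have hsc := clo_scale hd hM
  have e : (Matrix.of fun i j => (d i : ℂ) *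
      mat (A 0 1 / d 0) (A 1 0 / d 1) (A 1 2 / d 1) (A 2 1 / d 2) (A 2 0 / d 2) (A 0 2 / d 0) i j) = A := by
    ext i j
    fin_cases i <;> fin_cases j
    · simp [mat, hdA]
    · simp [mat]; field_simp
    · simp [mat]; field_simp
    · simp [mat]; field_simp
    · simp [mat, hdA]
    · simp [mat]; field_simp
    · simp [mat]; field_simp
    · simp [mat]; field_simp
    · simp [mat, hdA]
  rwa [e] at hsc

theorem small_order {n : ℕ} (hn : n ≤ 3) (A : Matrix (Fin n) (Fin n) ℂ) (hA : IsGKK A) :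
    A ∈ closure {B : Matrix (Fin n) (Fin n) ℂ | IsStrictGKK B} := by
  let A' : Matrix (Fin 3) (Fin 3) ℂ := Matrix.of fun i j =>
    if h : (i : ℕ) < n ∧ (j : ℕ) < n then A ⟨i, h.1⟩ ⟨j, h.2⟩ else if i = j then 1 else 0
  have h1 : ∀ i j, A' (Fin.castLE hn i) (Fin.castLE hn j) = A i j := by
    intro i j
    simp [A']
  have h2 : ∀ i j : Fin 3, n ≤ (j : ℕ) → A' i j = if i = j then 1 else 0 := by
    intro i j hj
    simp only [A', of_apply]
    rw [dif_neg]
    rintro ⟨-, h⟩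
    omega
  have h3 : A' ∈ clo := clo_three_by_three A' (isGKK_ext hn A A' h1 h2 hA)
  have h4 := mem_closure_submatrix h3 (Fin.castLE hn) (Fin.strictMono_castLE hn)
  have h5 : A'.submatrix (Fin.castLE hn) (Fin.castLE hn) = A := by
    ext i j; exact h1 i j
  rwa [h5] at h4

end Pool.Agent.Helper5.GKK
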