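import Mathlib
import Pool.Agent.Helper5.GKK.Herm

/-!
A certificate for limits of strict GKK matrices with an almost vanishing column: if all strict GKK
conditions whose common index set avoids `o` hold for `M`, then the matrix obtained from `M` by
deleting the entries off the diagonal in column `o` is a limit of strict GKK matrices.
-/

namespace Pool.Agent.Helper5.GKK

open Matrix Finset Filter Topology
open scoped ComplexOrder

variable {n : ℕ}

/-- a real matrix as a complex one -/
def cx (M : Matrix (Fin n) (Fin n) ℝ) : Matrix (Fin n) (Fin n) ℂ := M.map ((↑) : ℝ → ℂ)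

/-- the entries of column `o` off the diagonal are multiplied by `ε` -/
def brd (M : Matrix (Fin n) (Fin n) ℝ) (o : Fin n) (ε : ℝ) : Matrix (Fin n) (Fin n) ℝ :=
  Matrix.of fun i j => if j = o ∧ i ≠ o then ε * M i o else M i j

theorem pm_cx_im (M : Matrix (Fin n) (Fin n) ℝ) (S : Finset (Fin n)) : (pm (cx M) S).im = 0 := by
  have h : (cx M).submatrix (Subtype.val : S → Fin n) Subtype.val
      = (Complex.ofRealHom).mapMatrix (M.submatrix (Subtype.val : S → Fin n) Subtype.val) := by
    ext i j; rfl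
  rw [pm, h, ← RingHom.map_det]
  exact Complex.ofReal_im _

theorem ap_eq_sc (A : Matrix (Fin n) (Fin n) ℂ) {K : Finset (Fin n)} {i j : Fin n} (hK : pm A K ≠ 0)
    (hi : i ∉ K) (hj : j ∉ K) (hij : i ≠ j) :
    ap A K i j = pm A K ^ 2 * (sc A K i j * sc A K j i) := by
  rw [ap, pm_insert A K i hK hi, pm_insert A K j hK hj, pm_insert_insert A K i j hK hi hj hij]
  ring

theorem brd_off (M : Matrix (Fin n) (Fin n) ℝ) (o : Fin n) (ε : ℝ) {i j : Fin n} (hj : j ≠ o) :
    cx (brd M o ε) i j = cx M i j := by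
  simp [cx, brd, hj]

theorem brd_col (M : Matrix (Fin n) (Fin n) ℝ) (o : Fin n) (ε : ℝ) {i : Fin n} (hi : i ≠ o) :
    cx (brd M o ε) i o = ε * cx M i o := by
  simp [cx, brd, hi]

theorem brd_diag (M : Matrix (Fin n) (Fin n) ℝ) (o : Fin n) (ε : ℝ) :
    cx (brd M o ε) o o = cx M o o := by
  simp [cx, brd]

theorem brd_sub (M : Matrix (Fin n) (Fin n) ℝ) (o : Fin n) (ε : ℝ) {K : Finset (Fin n)} (ho : o ∉ K) :
    (cx (brd M o ε)).submatrix (Subtype.val : K → Fin n) (Subtype.val : K → Fin n)
      = (cx M).submatrix (Subtype.val : K → Fin n) (Subtype.val : K → Fin n) := by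
  ext x y
  exact brd_off M o ε fun h => ho (h ▸ y.2)

theorem pm_brd (M : Matrix (Fin n) (Fin n) ℝ) (o : Fin n) (ε : ℝ) {K : Finset (Fin n)} (ho : o ∉ K) :
    pm (cx (brd M o ε)) K = pm (cx M) K := by
  rw [pm, brd_sub M o ε ho, pm]

theorem sc_brd_off (M : Matrix (Fin n) (Fin n) ℝ) (o : Fin n) (ε : ℝ) {K : Finset (Fin n)} (ho : o ∉ K)
    {i j : Fin n} (hj : j ≠ o) : sc (cx (brd M o ε)) K i j = sc (cx M) K i j := by
  unfold sc
  rw [brd_sub M o ε ho, brd_off M o ε hj]
  congr 1
  refine Finset.sum_congr rfl fun x _ => Finset.sum_congr rfl fun y _ => ?_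
  rw [brd_off M o ε (fun h => ho (h ▸ x.2)), brd_off M o ε hj]

theorem sc_brd_col (M : Matrix (Fin n) (Fin n) ℝ) (o : Fin n) (ε : ℝ) {K : Finset (Fin n)} (ho : o ∉ K)
    {i : Fin n} (hi : i ≠ o) : sc (cx (brd M o ε)) K i o = ε * sc (cx M) K i o := by
  unfold sc
  rw [brd_sub M o ε ho, brd_col M o ε hi, mul_sub, Finset.mul_sum]
  congr 1
  refine Finset.sum_congr rfl fun x _ => ?_
  rw [Finset.mul_sum]
  refine Finset.sum_congr rfl fun y _ => ?_
  rw [brd_off M o ε (fun h => ho (h ▸ x.2)), brd_col M o ε (fun h => ho (h ▸ y.2))]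
  ring

theorem sc_brd_diag (M : Matrix (Fin n) (Fin n) ℝ) (o : Fin n) {K : Finset (Fin n)} (ho : o ∉ K) :
    sc (cx (brd M o 0)) K o o = cx M o o := by
  unfold sc
  rw [brd_diag, sub_eq_self]
  refine Finset.sum_eq_zero fun x _ => Finset.sum_eq_zero fun y _ => ?_
  rw [brd_col M o 0 (fun h => ho (h ▸ y.2))]
  simp

theorem continuous_brd (M : Matrix (Fin n) (Fin n) ℝ) (o : Fin n) :
    Continuous fun ε : ℝ => cx (brd M o ε) := by
  refine continuous_pi fun i => continuous_pi fun j => ?_
  simp only [cx, brd, map_apply, of_apply]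
  split_ifs
  · exact Complex.continuous_ofReal.comp (continuous_id.mul continuous_const)
  · exact continuous_const

/-- If `M` satisfies all strict GKK conditions whose common index set avoids `o`, then the matrix
with the off-diagonal entries of column `o` replaced by `0` is a limit of strict GKK matrices. -/
theorem border_mem_closure (M : Matrix (Fin n) (Fin n) ℝ) (o : Fin n) (hd : 0 < M o o)
    (hP : ∀ S, o ∉ S → 0 < pm (cx M) S)
    (hs : ∀ K i j, o ∉ K → i ∉ K → j ∉ K → i ≠ j → 0 < ap (cx M) K i j) :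
    cx (brd M o 0) ∈ closure {B : Matrix (Fin n) (Fin n) ℂ | IsStrictGKK B} := by
  have hd' : (0 : ℂ) < cx M o o := by
    simp only [cx, map_apply]
    exact_mod_cast hd
  set A : Matrix (Fin n) (Fin n) ℂ := cx (brd M o 0) with hA
  have hPK : ∀ K : Finset (Fin n), o ∉ K → 0 < pm A K := fun K ho => by
    rw [hA, pm_brd M o 0 ho]; exact hP K ho
  -- adding the index `o`
  have hins : ∀ K : Finset (Fin n), o ∉ K → pm A (insert o K) = pm A K * cx M o o := by
    intro K ho
    rw [pm_insert A K o (hPK K ho).ne' ho, hA, sc_brd_diag M o ho]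
  have hPA : ∀ S, 0 < pm A S := by
    intro S
    by_cases ho : o ∈ S
    · rw [← Finset.insert_erase ho, hins _ (Finset.notMem_erase o S)]
      exact mul_pos (hPK _ (Finset.notMem_erase o S)) hd'
    · exact hPK S ho
  -- almost principal products of the limit
  have hoff : ∀ K i j, o ∉ K → i ∉ K → j ∉ K → i ≠ j → i ≠ o → j ≠ o → 0 < ap A K i j := by
    intro K i j ho hi hj hij hio hjo
    have h1 := hs K i j ho hi hj hij
    have e : ap A K i j = ap (cx M) K i j := by
      rw [ap_eq_sc A (hPK K ho).ne' hi hj hij, ap_eq_sc (cx M) (hP K ho).ne' hi hj hij, hA,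
        pm_brd M o 0 ho, sc_brd_off M o 0 ho hjo, sc_brd_off M o 0 ho hio]
    rw [e]; exact h1
  have hon : ∀ K i j, o ∈ K → i ∉ K → j ∉ K → i ≠ j → 0 < ap A K i j := by
    intro K i j ho hi hj hij
    have hio : i ≠ o := fun h => hi (h ▸ ho)
    have hjo : j ≠ o := fun h => hj (h ▸ ho)
    obtain ⟨L, hoL, rfl⟩ : ∃ L, o ∉ L ∧ K = insert o L :=
      ⟨K.erase o, Finset.notMem_erase o K, (Finset.insert_erase ho).symm⟩
    have hiL : i ∉ L := fun h => hi (Finset.mem_insert_of_mem h)
    have hjL : j ∉ L := fun h => hj (Finset.mem_insert_of_mem h)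
    have h1 := hoff L i j hoL hiL hjL hij hio hjo
    have g1 : o ∉ insert i L := by
      rw [Finset.mem_insert]; push Not; exact ⟨hio.symm, hoL⟩
    have g2 : o ∉ insert j L := by
      rw [Finset.mem_insert]; push Not; exact ⟨hjo.symm, hoL⟩
    have g3 : o ∉ insert i (insert j L) := by
      rw [Finset.mem_insert]; push Not; exact ⟨hio.symm, g2⟩
    have e : ap A (insert o L) i j = cx M o o ^ 2 * ap A L i j := by
      unfold ap
      rw [Finset.insert_comm i o L, Finset.insert_comm j o L, Finset.insert_comm i o (insert j L),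
        hins _ g1, hins _ g2, hins _ g3, hins _ hoL]
      ring
    rw [e]
    exact mul_pos (pow_pos hd' 2) h1
  -- the approximating matrices
  have hcont := continuous_brd M o
  have ht : Tendsto (fun ε : ℝ => cx (brd M o ε)) (𝓝[>] (0 : ℝ)) (𝓝 A) := by
    have := (hcont.tendsto (0 : ℝ))
    exact this.mono_left nhdsWithin_le_nhds
  refine mem_closure_of_tendsto ht ?_
  have h1 := eventually_pm_pos (f := fun ε : ℝ => cx (brd M o ε)) hcont.continuousAt hPA
  have h2 : ∀ᶠ ε : ℝ in 𝓝[>] (0 : ℝ), ∀ (K : Finset (Fin n)) (i j : Fin n), i ∉ K → j ∉ K → i ≠ j →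
      (o ∈ K ∨ (i ≠ o ∧ j ≠ o)) → 0 < (ap (cx (brd M o ε)) K i j).re := by
    simp only [eventually_all]
    intro K i j hi hj hij hor
    have h3 : 0 < ap A K i j := by
      rcases em (o ∈ K) with ho | ho
      · exact hon K i j ho hi hj hij
      · rcases hor with h | ⟨h, h'⟩
        · exact absurd h ho
        · exact hoff K i j ho hi hj hij h h'
    have hc : ContinuousAt (fun ε : ℝ => (ap (cx (brd M o ε)) K i j).re) 0 := by
      refine (Complex.continuous_re.comp ?_).continuousAt
      unfold ap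
      exact (((continuous_pm _).comp hcont).mul ((continuous_pm _).comp hcont)).sub
        (((continuous_pm _).comp hcont).mul ((continuous_pm _).comp hcont))
    exact (hc.tendsto.eventually_const_lt (Complex.pos_iff.mp h3).1).filter_mono nhdsWithin_le_nhds
  filter_upwards [h1, h2, self_mem_nhdsWithin] with ε h1 h2 hε
  have hε' : (0 : ℂ) < (ε : ℂ) := by exact_mod_cast (hε : (0 : ℝ) < ε)
  have hp : ∀ S, 0 < pm (cx (brd M o ε)) S := fun S => pos_of_im (h1 S) (pm_cx_im _ S)
  have him : ∀ K i j, (ap (cx (brd M o ε)) K i j).im = 0 := by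
    intro K i j
    have h : ∀ S, (pm (cx (brd M o ε)) S).im = 0 := pm_cx_im _
    simp [ap, Complex.sub_im, Complex.mul_im, h]
  have hcol : ∀ K i, o ∉ K → i ∉ K → i ≠ o → 0 < ap (cx (brd M o ε)) K i o := by
    intro K i ho hi hio
    have e : ap (cx (brd M o ε)) K i o = ε * ap (cx M) K i o := by
      rw [ap_eq_sc _ (hp K).ne' hi ho hio, ap_eq_sc (cx M) (hP K ho).ne' hi ho hio,
        pm_brd M o ε ho, sc_brd_col M o ε ho hio, sc_brd_off M o ε ho hio]
      ring
    rw [e]
    exact mul_pos hε' (hs K i o ho hi ho hio)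
  refine (isStrictGKK_iff _).mpr ⟨hp, fun K i j hi hj hij => ?_⟩
  by_cases ho : o ∈ K
  · exact pos_of_im (h2 K i j hi hj hij (Or.inl ho)) (him K i j)
  by_cases hio : i = o
  · subst hio
    have e : ap (cx (brd M i ε)) K i j = ap (cx (brd M i ε)) K j i := by
      unfold ap
      rw [Finset.insert_comm i j K]
      ring
    rw [e]
    exact hcol K j ho hj (Ne.symm hij)
  by_cases hjo : j = o
  · subst hjo
    exact hcol K i ho hi hio
  exact pos_of_im (h2 K i j hi hj hij (Or.inr ⟨hio, hjo⟩)) (him K i j)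

/-- If the column `o` of `M` vanishes off the diagonal, `M o o > 0`, and the GKK conditions hold for
the rows and columns other than `o`, then `M` is GKK. -/
theorem border_isGKK (M : Matrix (Fin n) (Fin n) ℝ) (o : Fin n) (hd : 0 < M o o)
    (hcol : ∀ i, i ≠ o → M i o = 0) (hP : ∀ S, o ∉ S → 0 < pm (cx M) S)
    (hs : ∀ K i j, o ∉ K → i ∉ K → j ∉ K → i ≠ j → i ≠ o → j ≠ o → 0 ≤ ap (cx M) K i j) :
    IsGKK (cx M) := by
  have hd' : (0 : ℂ) < cx M o o := by
    simp only [cx, map_apply]
    exact_mod_cast hd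
  have hc0 : ∀ i, i ≠ o → cx M i o = 0 := fun i hi => by simp [cx, hcol i hi]
  have hsc : ∀ (K : Finset (Fin n)) (i : Fin n), o ∉ K → sc (cx M) K i o = cx M i o := by
    intro K i ho
    unfold sc
    rw [sub_eq_self]
    refine Finset.sum_eq_zero fun x _ => Finset.sum_eq_zero fun y _ => ?_
    rw [hc0 y (fun h => ho (h ▸ y.2)), mul_zero]
  have hins : ∀ K : Finset (Fin n), o ∉ K → pm (cx M) (insert o K) = pm (cx M) K * cx M o o := by
    intro K ho
    rw [pm_insert (cx M) K o (hP K ho).ne' ho, hsc K o ho]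
  have hPA : ∀ S, 0 < pm (cx M) S := by
    intro S
    by_cases ho : o ∈ S
    · rw [← Finset.insert_erase ho, hins _ (Finset.notMem_erase o S)]
      exact mul_pos (hP _ (Finset.notMem_erase o S)) hd'
    · exact hP S ho
  have hz : ∀ K i, o ∉ K → i ∉ K → i ≠ o → ap (cx M) K i o = 0 := by
    intro K i ho hi hio
    rw [ap_eq_sc _ (hPA K).ne' hi ho hio, hsc K i ho, hc0 i hio, zero_mul, mul_zero]
  refine (isGKK_iff _).mpr ⟨hPA, fun K i j hi hj hij => ?_⟩
  by_cases ho : o ∈ K
  · have hio : i ≠ o := fun h => hi (h ▸ ho)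
    have hjo : j ≠ o := fun h => hj (h ▸ ho)
    obtain ⟨L, hoL, rfl⟩ : ∃ L, o ∉ L ∧ K = insert o L :=
      ⟨K.erase o, Finset.notMem_erase o K, (Finset.insert_erase ho).symm⟩
    have hiL : i ∉ L := fun h => hi (Finset.mem_insert_of_mem h)
    have hjL : j ∉ L := fun h => hj (Finset.mem_insert_of_mem h)
    have h1 := hs L i j hoL hiL hjL hij hio hjo
    have g1 : o ∉ insert i L := by
      rw [Finset.mem_insert]; push Not; exact ⟨hio.symm, hoL⟩
    have g2 : o ∉ insert j L := by
      rw [Finset.mem_insert]; push Not; exact ⟨hjo.symm, hoL⟩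
    have g3 : o ∉ insert i (insert j L) := by
      rw [Finset.mem_insert]; push Not; exact ⟨hio.symm, g2⟩
    have e : ap (cx M) (insert o L) i j = cx M o o ^ 2 * ap (cx M) L i j := by
      unfold ap
      rw [Finset.insert_comm i o L, Finset.insert_comm j o L, Finset.insert_comm i o (insert j L),
        hins _ g1, hins _ g2, hins _ g3, hins _ hoL]
      ring
    rw [e]
    exact mul_nonneg (pow_nonneg hd'.le 2) h1
  by_cases hio : i = o
  · subst hio
    have e : ap (cx M) K i j = ap (cx M) K j i := by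
      unfold ap
      rw [Finset.insert_comm i j K]
      ring
    rw [e, hz K j ho hj (Ne.symm hij)]
  by_cases hjo : j = o
  · subst hjo
    rw [hz K i ho hi hio]
  exact hs K i j ho hi hj hij hio hjo

end Pool.Agent.Helper5.GKK
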