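import Mathlib
import Pool.Agent.Helper5.GKK.Border
import Pool.Agent.Helper5.GKK.Counter
import Pool.Agent.Helper85.SVG.Main

/-!
For every `n ≥ 4` there are two integral GKK matrices of order `n` whose minors of the same place
all have the same sign, one a limit of strict GKK matrices and the other not.
-/

namespace Pool.Agent.Helper5.GKK

open Matrix Finset Filter Topology
open scoped ComplexOrder

/-! ### integer matrices -/

/-- principal minors of an integer matrix -/
def pmz {n : ℕ} (M : Matrix (Fin n) (Fin n) ℤ) (S : Finset (Fin n)) : ℤ :=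
  (M.submatrix (Subtype.val : S → Fin n) Subtype.val).det

/-- almost principal products of an integer matrix -/
def apz {n : ℕ} (M : Matrix (Fin n) (Fin n) ℤ) (K : Finset (Fin n)) (i j : Fin n) : ℤ :=
  pmz M (insert i K) * pmz M (insert j K) - pmz M K * pmz M (insert i (insert j K))

theorem pm_castz {n : ℕ} (M : Matrix (Fin n) (Fin n) ℤ) (S : Finset (Fin n)) :
    pm (M.map ((↑) : ℤ → ℂ)) S = (pmz M S : ℂ) := by
  have h : (M.map ((↑) : ℤ → ℂ)).submatrix (Subtype.val : S → Fin n) (Subtype.val : S → Fin n)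
      = (Int.castRingHom ℂ).mapMatrix (M.submatrix (Subtype.val : S → Fin n) Subtype.val) := by
    ext i j; rfl
  rw [pm, h, ← RingHom.map_det]
  rfl

theorem ap_castz {n : ℕ} (M : Matrix (Fin n) (Fin n) ℤ) (K : Finset (Fin n)) (i j : Fin n) :
    ap (M.map ((↑) : ℤ → ℂ)) K i j = (apz M K i j : ℂ) := by
  unfold ap apz
  rw [pm_castz, pm_castz, pm_castz, pm_castz]
  push_cast
  rfl

theorem pos_castz {z : ℤ} (h : 0 < z) : (0 : ℂ) < (z : ℂ) := by
  have : (0 : ℝ) < (z : ℝ) := by exact_mod_cast h
  exact_mod_cast this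

theorem nonneg_castz {z : ℤ} (h : 0 ≤ z) : (0 : ℂ) ≤ (z : ℂ) := by
  have : (0 : ℝ) ≤ (z : ℝ) := by exact_mod_cast h
  exact_mod_cast this

theorem cx_castz {n : ℕ} (M : Matrix (Fin n) (Fin n) ℤ) :
    cx (M.map ((↑) : ℤ → ℝ)) = M.map ((↑) : ℤ → ℂ) := by
  ext i j
  simp [cx]

/-! ### the second example of order four -/

/-- the second example -/
def fx4 : Matrix (Fin 4) (Fin 4) ℤ := !![4, 3, 2, 0; 6, 8, 1, 0; 3, 1, 5, 0; 8, 10, -4, 1]

/-- the certificate: the column `(2, 5, -1)` -/
def fy4 : Matrix (Fin 4) (Fin 4) ℤ := !![4, 3, 2, 2; 6, 8, 1, 5; 3, 1, 5, -1; 8, 10, -4, 1]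

/-- the leading block of order three of the second example -/
def fz3 : Matrix (Fin 3) (Fin 3) ℤ := !![4, 3, 2; 6, 8, 1; 3, 1, 5]

set_option maxRecDepth 100000 in
theorem fy4_pm : ∀ S : Finset (Fin 4), 3 ∉ S → 0 < pmz fy4 S := by decide +kernel

set_option maxRecDepth 100000 in
theorem fy4_ap : ∀ K : Finset (Fin 4), 3 ∉ K → ∀ i, i ∉ K → ∀ j, j ∉ K → i ≠ j →
    0 < apz fy4 K i j := by decide +kernel

set_option maxRecDepth 100000 in
theorem fz3_pm : ∀ S : Finset (Fin 3), 0 < pmz fz3 S := by decide +kernel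

set_option maxRecDepth 100000 in
theorem fz3_ap : ∀ K : Finset (Fin 3), ∀ i, i ∉ K → ∀ j, j ∉ K → i ≠ j →
    0 ≤ apz fz3 K i j := by decide +kernel

theorem fx4_mem : fx4.map ((↑) : ℤ → ℂ) ∈ closure {B : Matrix (Fin 4) (Fin 4) ℂ | IsStrictGKK B} := by
  have h := border_mem_closure (fy4.map ((↑) : ℤ → ℝ)) 3 (by simp [fy4])
    (fun S hS => by rw [cx_castz, pm_castz]; exact pos_castz (fy4_pm S hS))
    (fun K i j ho hi hj hij => by rw [cx_castz, ap_castz]; exact pos_castz (fy4_ap K ho i hi j hj hij))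
  convert h using 1
  ext i j
  fin_cases i <;> fin_cases j <;> simp [cx, brd, fx4, fy4]

theorem isGKK_fz3 : IsGKK (fz3.map ((↑) : ℤ → ℂ)) := by
  rw [isGKK_iff]
  refine ⟨fun S => by rw [pm_castz]; exact pos_castz (fz3_pm S), fun K i j hi hj hij => ?_⟩
  rw [ap_castz]
  exact nonneg_castz (fz3_ap K i hi j hj hij)

/-! ### direct sums with the identity -/

/-- direct sum with the identity -/
def extz (n : ℕ) (E : Matrix (Fin 4) (Fin 4) ℤ) : Matrix (Fin n) (Fin n) ℤ := Matrix.of fun i j =>
  if h : (i : ℕ) < 4 ∧ (j : ℕ) < 4 then E ⟨i, h.1⟩ ⟨j, h.2⟩ else if i = j then 1 else 0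

/-- direct sum with the identity -/
def extc (n : ℕ) (E : Matrix (Fin 4) (Fin 4) ℂ) : Matrix (Fin n) (Fin n) ℂ := Matrix.of fun i j =>
  if h : (i : ℕ) < 4 ∧ (j : ℕ) < 4 then E ⟨i, h.1⟩ ⟨j, h.2⟩ else if i = j then 1 else 0

theorem extz_map (n : ℕ) (E : Matrix (Fin 4) (Fin 4) ℤ) :
    (extz n E).map ((↑) : ℤ → ℂ) = extc n (E.map ((↑) : ℤ → ℂ)) := by
  ext i j
  simp only [map_apply, extz, extc, of_apply]
  split_ifs <;> simp

theorem continuous_extc (n : ℕ) : Continuous (extc n) := by
  refine continuous_pi fun i => continuous_pi fun j => ?_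
  simp only [extc, of_apply]
  split_ifs
  · exact continuous_apply_apply _ _
  · exact continuous_const
  · exact continuous_const

theorem extc_row (n : ℕ) (E : Matrix (Fin 4) (Fin 4) ℂ) {i j : Fin n} (hi : 4 ≤ (i : ℕ)) (hij : i ≠ j) :
    extc n E i j = 0 := by
  simp only [extc, of_apply]
  rw [dif_neg (by omega), if_neg hij]

theorem extc_col (n : ℕ) (E : Matrix (Fin 4) (Fin 4) ℂ) {i j : Fin n} (hj : 4 ≤ (j : ℕ)) (hij : i ≠ j) :
    extc n E i j = 0 := by
  simp only [extc, of_apply]
  rw [dif_neg (by omega), if_neg hij]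

theorem extc_castLE {n : ℕ} (hn : 4 ≤ n) (E : Matrix (Fin 4) (Fin 4) ℂ) (i j : Fin 4) :
    extc n E (Fin.castLE hn i) (Fin.castLE hn j) = E i j := by
  simp only [extc, of_apply]
  rw [dif_pos ⟨by simp, by simp⟩]
  rfl

theorem extc_ge {n : ℕ} (E : Matrix (Fin 4) (Fin 4) ℂ) (i j : Fin n) (hj : 4 ≤ (j : ℕ)) :
    extc n E i j = if i = j then 1 else 0 := by
  simp only [extc, of_apply]
  rw [dif_neg (by omega)]

theorem extc_mem {n : ℕ} (hn : 4 ≤ n) {B : Matrix (Fin 4) (Fin 4) ℂ} (hB : IsStrictGKK B) :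
    extc n B ∈ closure {X : Matrix (Fin n) (Fin n) ℂ | IsStrictGKK X} := by
  have hB' := (isStrictGKK_iff B).mp hB
  have hG : IsGKK B := (isGKK_iff B).mpr ⟨hB'.1, fun K i j hi hj hij => (hB'.2 K i j hi hj hij).le⟩
  have hE : IsGKK (extc n B) := isGKK_ext hn B _ (extc_castLE hn B) (extc_ge B) hG
  have hP : ∀ S, 0 < pm (extc n B) S := ((isGKK_iff _).mp hE).1
  have hsc : ∀ (K : Finset (Fin n)) (i j : Fin n), i ∉ K → j ∉ K → i ≠ j →
      (Helper85.SVG.pp (extc n B) K i j = 0 ↔ Helper85.SVG.pp (extc n B) K j i = 0) := by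
    intro K i j hi hj hij
    have blk : ∀ a : Fin n, 4 ≤ (a : ℕ) → ∀ b : Fin n, b ≠ a → a ∉ K → b ∉ K →
        Helper85.SVG.pp (extc n B) K a b = 0 ∧ Helper85.SVG.pp (extc n B) K b a = 0 := by
      intro a ha b hb haK hbK
      have hb1 := Helper85.SVG.pp_block (fun S => (hP S).ne') {a}
        (fun x y hx hy => by
          rw [Set.mem_singleton_iff] at hx; subst hx
          exact extc_row n B ha (fun h => hy (by rw [← h]; rfl)))
        (fun x y hx hy => by
          rw [Set.mem_singleton_iff] at hx; subst hx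
          exact extc_col n B ha (fun h => hy (by rw [h]; rfl))) K
      constructor
      · rw [Helper85.SVG.pp_eq_sc _ _ (hP K).ne', hb1 a b (Or.inl ⟨rfl, hb⟩) haK hbK, mul_zero]
      · rw [Helper85.SVG.pp_eq_sc _ _ (hP K).ne', hb1 b a (Or.inr ⟨hb, rfl⟩) hbK haK, mul_zero]
    rcases Nat.lt_or_ge (i : ℕ) 4 with h3 | h3
    · rcases Nat.lt_or_ge (j : ℕ) 4 with h4 | h4
      · obtain ⟨i, rfl⟩ : ∃ i' : Fin 4, Fin.castLE hn i' = i := ⟨⟨i, h3⟩, rfl⟩
        obtain ⟨j, rfl⟩ : ∃ j' : Fin 4, Fin.castLE hn j' = j := ⟨⟨j, h4⟩, rfl⟩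
        have h5 : 0 < ap (extc n B) K (Fin.castLE hn i) (Fin.castLE hn j) := by
          unfold ap
          simp only [pm_ext hn B (extc n B) (extc_castLE hn B) (extc_ge B), res_insert_lt]
          exact hB'.2 (res hn K) i j (fun hh => hi (mem_res.mp hh)) (fun hh => hj (mem_res.mp hh))
            (fun hh => hij (congrArg _ hh))
        rw [Helper85.SVG.ap_eq_pp _ hP hi hj hij] at h5
        exact ⟨fun h => absurd h (left_ne_zero_of_mul h5.ne'),
          fun h => absurd h (right_ne_zero_of_mul h5.ne')⟩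
      · obtain ⟨h5, h6⟩ := blk j h4 i hij hj hi
        rw [h5, h6]
    · obtain ⟨h5, h6⟩ := blk i h3 j hij.symm hi hj
      rw [h5, h6]
  obtain ⟨c, hc⟩ := (Helper85.SVG.main (A := extc n B) hE.1).mp ⟨hE, fun k α β hαβ => by
    obtain ⟨K, i, j, hi, hj, hij, hα, hβ⟩ := hαβ.exists
    rw [← norm_eq_zero, Helper85.SVG.norm_minor_eq hi hj hαβ.1 hαβ.2.1 hα hβ, norm_eq_zero,
      ← norm_eq_zero (a := minor (extc n B) β α),
      Helper85.SVG.norm_minor_eq hj hi hαβ.2.1 hαβ.1 hβ hα, norm_eq_zero]
    exact hsc K i j hi hj hij⟩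
  exact closure_mono (fun X hX => hX.1) hc

theorem extc_mem_closure {n : ℕ} (hn : 4 ≤ n) {A : Matrix (Fin 4) (Fin 4) ℂ}
    (hA : A ∈ closure {X : Matrix (Fin 4) (Fin 4) ℂ | IsStrictGKK X}) :
    extc n A ∈ closure {X : Matrix (Fin n) (Fin n) ℂ | IsStrictGKK X} := by
  have := map_mem_closure (continuous_extc n) hA
    (t := closure {X : Matrix (Fin n) (Fin n) ℂ | IsStrictGKK X}) fun B hB => extc_mem hn hB
  rwa [closure_closure] at this

/-! ### minors of direct sums -/

theorem ext_minor (n : ℕ) : ∀ (k : ℕ) (α β : Fin k → Fin n), StrictMono α → StrictMono β →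
    (∀ E, ((extz n E).submatrix α β).det = 0) ∨ ∃ (l : ℕ) (a b : Fin l → Fin 4),
      StrictMono a ∧ StrictMono b ∧ ∀ E, ((extz n E).submatrix α β).det = (E.submatrix a b).det := by
  intro k
  induction k with
  | zero =>
    intro α β _ _
    exact Or.inr ⟨0, Fin.elim0, Fin.elim0, fun i => i.elim0, fun i => i.elim0, fun E => by simp⟩
  | succ k ih =>
    intro α β hα hβ
    have hp : ∀ i, α i ≤ α (Fin.last k) := fun i => hα.monotone (Fin.le_last i)
    have hq : ∀ i, β i ≤ β (Fin.last k) := fun i => hβ.monotone (Fin.le_last i)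
    have zcol : ∀ j, 4 ≤ (β j : ℕ) → (∀ i, α i ≠ β j) → ∀ E, ((extz n E).submatrix α β).det = 0 := by
      intro j hj h E
      refine det_eq_zero_of_column_eq_zero j fun i => ?_
      simp only [submatrix_apply, extz, of_apply]
      rw [dif_neg (by omega), if_neg (h i)]
    have zrow : ∀ i, 4 ≤ (α i : ℕ) → (∀ j, α i ≠ β j) → ∀ E, ((extz n E).submatrix α β).det = 0 := by
      intro i hi h E
      refine det_eq_zero_of_row_eq_zero i fun j => ?_
      simp only [submatrix_apply, extz, of_apply]
      rw [dif_neg (by omega), if_neg (h j)]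
    rcases lt_trichotomy (α (Fin.last k)) (β (Fin.last k)) with h | h | h
    · rcases Nat.lt_or_ge (β (Fin.last k) : ℕ) 4 with h4 | h4
      · right
        have ha : ∀ i, (α i : ℕ) < 4 := fun i => by
          have h1 : (α i : ℕ) ≤ α (Fin.last k) := hp i
          have h2 : (α (Fin.last k) : ℕ) < β (Fin.last k) := h
          omega
        have hb : ∀ i, (β i : ℕ) < 4 := fun i => by
          have h1 : (β i : ℕ) ≤ β (Fin.last k) := hq i
          omega
        refine ⟨k + 1, fun i => ⟨α i, ha i⟩, fun i => ⟨β i, hb i⟩, fun x y hxy => hα hxy,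
          fun x y hxy => hβ hxy, fun E => ?_⟩
        congr 1
        ext i j
        simp only [submatrix_apply, extz, of_apply]
        rw [dif_pos ⟨ha i, hb j⟩]
      · left
        exact zcol _ h4 fun i => ((hp i).trans_lt h).ne
    · rcases Nat.lt_or_ge (β (Fin.last k) : ℕ) 4 with h4 | h4
      · right
        have ha : ∀ i, (α i : ℕ) < 4 := fun i => by
          have h1 : (α i : ℕ) ≤ α (Fin.last k) := hp i
          have h2 : (α (Fin.last k) : ℕ) = β (Fin.last k) := congrArg _ h
          omega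
        have hb : ∀ i, (β i : ℕ) < 4 := fun i => by
          have h1 : (β i : ℕ) ≤ β (Fin.last k) := hq i
          omega
        refine ⟨k + 1, fun i => ⟨α i, ha i⟩, fun i => ⟨β i, hb i⟩, fun x y hxy => hα hxy,
          fun x y hxy => hβ hxy, fun E => ?_⟩
        congr 1
        ext i j
        simp only [submatrix_apply, extz, of_apply]
        rw [dif_pos ⟨ha i, hb j⟩]
      · have hred : ∀ E, ((extz n E).submatrix α β).det
            = ((extz n E).submatrix (α ∘ Fin.castSucc) (β ∘ Fin.castSucc)).det := by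
          intro E
          rw [det_succ_row _ (Fin.last k), Finset.sum_eq_single (Fin.last k)]
          · have e1 : (extz n E).submatrix α β (Fin.last k) (Fin.last k) = 1 := by
              simp only [submatrix_apply, extz, of_apply]
              rw [dif_neg (by omega), if_pos h]
            rw [e1, submatrix_submatrix]
            have e2 : (Fin.last k).succAbove = Fin.castSucc := by
              funext x; exact Fin.succAbove_last_apply x
            rw [e2]
            have e3 : ((-1 : ℤ)) ^ (((Fin.last k : Fin (k + 1)) : ℕ) + ((Fin.last k : Fin (k + 1)) : ℕ)) = 1 := by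
              rw [← two_mul, pow_mul]; simp
            rw [e3, one_mul, one_mul]
          · intro j _ hj
            have e1 : (extz n E).submatrix α β (Fin.last k) j = 0 := by
              simp only [submatrix_apply, extz, of_apply]
              rw [dif_neg (by have : (α (Fin.last k) : ℕ) = β (Fin.last k) := congrArg _ h
                              omega), if_neg]
              rw [h]
              exact fun hh => hj (hβ.injective hh).symm
            rw [e1]; ring
          · intro h; exact absurd (Finset.mem_univ _) h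
        have hα' : StrictMono (α ∘ Fin.castSucc) := hα.comp Fin.strictMono_castSucc
        have hβ' : StrictMono (β ∘ Fin.castSucc) := hβ.comp Fin.strictMono_castSucc
        rcases ih _ _ hα' hβ' with h5 | ⟨l, a, b, h5, h6, h7⟩
        · exact Or.inl fun E => (hred E).trans (h5 E)
        · exact Or.inr ⟨l, a, b, h5, h6, fun E => (hred E).trans (h7 E)⟩
    · rcases Nat.lt_or_ge (α (Fin.last k) : ℕ) 4 with h4 | h4
      · right
        have ha : ∀ i, (α i : ℕ) < 4 := fun i => by
          have h1 : (α i : ℕ) ≤ α (Fin.last k) := hp i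
          omega
        have hb : ∀ i, (β i : ℕ) < 4 := fun i => by
          have h1 : (β i : ℕ) ≤ β (Fin.last k) := hq i
          have h2 : (β (Fin.last k) : ℕ) < α (Fin.last k) := h
          omega
        refine ⟨k + 1, fun i => ⟨α i, ha i⟩, fun i => ⟨β i, hb i⟩, fun x y hxy => hα hxy,
          fun x y hxy => hβ hxy, fun E => ?_⟩
        congr 1
        ext i j
        simp only [submatrix_apply, extz, of_apply]
        rw [dif_pos ⟨ha i, hb j⟩]
      · left
        exact zrow _ h4 fun j => ((hq j).trans_lt h).ne'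

set_option maxRecDepth 100000 in
theorem sign_four1 : ∀ α : Fin 1 → Fin 4, StrictMono α → ∀ β : Fin 1 → Fin 4, StrictMono β →
    SignType.sign (ex4.submatrix α β).det = SignType.sign (fx4.submatrix α β).det := by decide +kernel

set_option maxRecDepth 100000 in
theorem sign_four2 : ∀ α : Fin 2 → Fin 4, StrictMono α → ∀ β : Fin 2 → Fin 4, StrictMono β →
    SignType.sign (ex4.submatrix α β).det = SignType.sign (fx4.submatrix α β).det := by decide +kernel

set_option maxRecDepth 100000 in
theorem sign_four3 : ∀ α : Fin 3 → Fin 4, StrictMono α → ∀ β : Fin 3 → Fin 4, StrictMono β →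
    SignType.sign (ex4.submatrix α β).det = SignType.sign (fx4.submatrix α β).det := by decide +kernel

set_option maxRecDepth 100000 in
theorem sign_four4 : ∀ α : Fin 4 → Fin 4, StrictMono α → ∀ β : Fin 4 → Fin 4, StrictMono β →
    SignType.sign (ex4.submatrix α β).det = SignType.sign (fx4.submatrix α β).det := by decide +kernel

theorem sign_four (l : ℕ) (α β : Fin l → Fin 4) (hα : StrictMono α) (hβ : StrictMono β) :
    SignType.sign (ex4.submatrix α β).det = SignType.sign (fx4.submatrix α β).det := by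
  have hl : l ≤ 4 := by
    have := Fintype.card_le_of_injective α hα.injective
    simpa using this
  interval_cases l
  · simp
  · exact sign_four1 α hα β hβ
  · exact sign_four2 α hα β hβ
  · exact sign_four3 α hα β hβ
  · exact sign_four4 α hα β hβ

/-- **Two GKK matrices with the same signs of all minors.** For every `n ≥ 4` there are integral GKK
matrices `A`, `A'` of order `n` with `sign A[α,β] = sign A'[α,β]` for all minors, `A` a limit of
strict GKK matrices and `A'` not. -/
theorem twins {n : ℕ} (hn : 4 ≤ n) :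
    ∃ A A' : Matrix (Fin n) (Fin n) ℤ,
      IsGKK (A.map ((↑) : ℤ → ℂ)) ∧ IsGKK (A'.map ((↑) : ℤ → ℂ)) ∧
      (∀ (k : ℕ) (α β : Fin k → Fin n), StrictMono α → StrictMono β →
        SignType.sign (A.submatrix α β).det = SignType.sign (A'.submatrix α β).det) ∧
      A.map ((↑) : ℤ → ℂ) ∈ closure {B : Matrix (Fin n) (Fin n) ℂ | IsStrictGKK B} ∧
      A'.map ((↑) : ℤ → ℂ) ∉ closure {B : Matrix (Fin n) (Fin n) ℂ | IsStrictGKK B} := by
  have hex : exn n = extz n ex4 := rfl
  refine ⟨extz n fx4, exn n, ?_, (exn_spec hn).1, ?_, ?_, (exn_spec hn).2⟩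
  · refine isGKK_ext (m := 3) (by omega) (fz3.map ((↑) : ℤ → ℂ)) _ ?_ ?_ isGKK_fz3
    · intro i j
      have hi : ((Fin.castLE (by omega : 3 ≤ n) i : Fin n) : ℕ) < 4 := by simp; omega
      have hj : ((Fin.castLE (by omega : 3 ≤ n) j : Fin n) : ℕ) < 4 := by simp; omega
      simp only [map_apply, extz, of_apply]
      rw [dif_pos ⟨hi, hj⟩]
      fin_cases i <;> fin_cases j <;> simp [fx4, fz3, Fin.castLE]
    · intro i j hj
      simp only [map_apply, extz, of_apply]
      by_cases h : (i : ℕ) < 4 ∧ (j : ℕ) < 4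
      · rw [dif_pos h]
        obtain ⟨hi, hj4⟩ := h
        have hj3 : (j : ℕ) = 3 := by omega
        have hij : i = j ↔ (i : ℕ) = 3 := by rw [Fin.ext_iff, hj3]
        simp only [hij]
        obtain ⟨i, hi'⟩ := i
        obtain ⟨j, hj'⟩ := j
        simp only at hi hj3 ⊢
        subst hj3
        interval_cases i <;> simp [fx4]
      · rw [dif_neg h]
        split_ifs <;> simp
  · intro k α β hα hβ
    rcases ext_minor n k α β hα hβ with h | ⟨l, a, b, ha, hb, h⟩
    · rw [hex, h, h]
    · rw [hex, h, h]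
      exact (sign_four l a b ha hb).symm
  · rw [extz_map]
    exact extc_mem_closure hn fx4_mem

end Pool.Agent.Helper5.GKK
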